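import Mathlib

namespace Pool.Agent.Results.MP_47c171_nt.FullDensity

/-- `A` is admissible for `N`: it is a set of integers from `1` to `N` and there is one choice of
signs `δ n = 1` or `δ n = -1` on `A` such that the signed sum of reciprocals over `A` is `0`,
while the signed sum over every nonempty proper subset of `A` is nonzero. -/
def Admissible (N : ℕ) (A : Finset ℕ) : Prop :=
  A ⊆ Finset.Icc 1 N ∧ ∃ δ : ℕ → ℤ, (∀ n ∈ A, δ n = 1 ∨ δ n = -1) ∧
    (∑ n ∈ A, (δ n : ℚ) / (n : ℚ) = 0) ∧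
    ∀ A' : Finset ℕ, A' ⊆ A → A' ≠ ∅ → A' ≠ A → ∑ n ∈ A', (δ n : ℚ) / (n : ℚ) ≠ 0

/-- `c N` is the maximum cardinality of an admissible subset of `{1, ..., N}`. -/
noncomputable def c (N : ℕ) : ℕ := sSup {m : ℕ | ∃ A : Finset ℕ, Admissible N A ∧ A.card = m}

namespace PartA

open Finset

/-- Averaging bound: the operator `φ ↦ (c ↦ ∑_{x ∈ X, y ∈ Y} φ (c - g x y))` on mean zero functions. -/
lemma l2_bound {q : ℕ} [Fact q.Prime] (X Y : Finset (ZMod q)) (g : ZMod q) (hg : g ≠ 0)
    (φ : ZMod q → ℝ) (h0 : ∑ c, φ c = 0) :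
    ∑ c, (∑ x ∈ X, ∑ y ∈ Y, φ (c - g * x * y)) ^ 2
      ≤ (q : ℝ) * X.card * Y.card * ∑ c, φ c ^ 2 := by
  classical
  have step1 : ∀ c : ZMod q, (∑ x ∈ X, ∑ y ∈ Y, φ (c - g * x * y)) ^ 2
      ≤ (X.card : ℝ) * ∑ x : ZMod q, (∑ y ∈ Y, φ (c - g * x * y)) ^ 2 := by
    intro c
    calc (∑ x ∈ X, ∑ y ∈ Y, φ (c - g * x * y)) ^ 2
        ≤ (X.card : ℝ) * ∑ x ∈ X, (∑ y ∈ Y, φ (c - g * x * y)) ^ 2 :=
          sq_sum_le_card_mul_sum_sq
      _ ≤ (X.card : ℝ) * ∑ x : ZMod q, (∑ y ∈ Y, φ (c - g * x * y)) ^ 2 := by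
          apply mul_le_mul_of_nonneg_left _ (Nat.cast_nonneg _)
          exact Finset.sum_le_univ_sum_of_nonneg (fun x => sq_nonneg _)
  have key : ∑ c : ZMod q, ∑ x : ZMod q, (∑ y ∈ Y, φ (c - g * x * y)) ^ 2
      = (q : ℝ) * Y.card * ∑ c, φ c ^ 2 := by
    have expand : ∀ c x : ZMod q, (∑ y ∈ Y, φ (c - g * x * y)) ^ 2
        = ∑ y ∈ Y, ∑ y' ∈ Y, φ (c - g * x * y) * φ (c - g * x * y') := by
      intro c x
      rw [sq, Finset.sum_mul_sum]
    simp_rw [expand]
    have swap : ∑ c : ZMod q, ∑ x : ZMod q, ∑ y ∈ Y, ∑ y' ∈ Y,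
          φ (c - g * x * y) * φ (c - g * x * y')
        = ∑ y ∈ Y, ∑ y' ∈ Y, ∑ x : ZMod q, ∑ c : ZMod q,
          φ (c - g * x * y) * φ (c - g * x * y') := by
      rw [Finset.sum_comm]
      simp_rw [Finset.sum_comm (s := (Finset.univ : Finset (ZMod q))) (t := Y)]
    rw [swap]
    have inner : ∀ y ∈ Y, ∀ y' ∈ Y, (∑ x : ZMod q, ∑ c : ZMod q,
        φ (c - g * x * y) * φ (c - g * x * y'))
        = if y = y' then (q : ℝ) * ∑ c, φ c ^ 2 else 0 := by
      intro y _ y' _
      have sub : ∀ x : ZMod q, (∑ c : ZMod q, φ (c - g * x * y) * φ (c - g * x * y'))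
          = ∑ c : ZMod q, φ c * φ (c + g * x * (y - y')) := by
        intro x
        refine Fintype.sum_equiv (Equiv.subRight (g * x * y)) _ _ ?_
        intro c
        simp only [Equiv.subRight_apply]
        congr 2
        ring
      simp_rw [sub]
      split_ifs with h
      · subst h
        simp only [sub_self, mul_zero, add_zero]
        rw [Finset.sum_const, Finset.card_univ, ZMod.card, nsmul_eq_mul]
        congr 1
        apply Finset.sum_congr rfl
        intro c _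
        ring
      · rw [Finset.sum_comm]
        apply Finset.sum_eq_zero
        intro c _
        rw [← Finset.mul_sum]
        have hne : g * (y - y') ≠ 0 := mul_ne_zero hg (sub_ne_zero.mpr h)
        have : ∑ x : ZMod q, φ (c + g * x * (y - y')) = ∑ x : ZMod q, φ x := by
          refine Fintype.sum_equiv ((Equiv.mulLeft₀ (g * (y - y')) hne).trans
            (Equiv.addLeft c)) _ _ ?_
          intro x
          change φ (c + g * x * (y - y')) = φ (c + (g * (y - y')) * x)
          congr 1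
          ring
        rw [this, h0, mul_zero]
    rw [Finset.sum_congr rfl (fun y hy => Finset.sum_congr rfl (fun y' hy' => inner y hy y' hy'))]
    have : ∀ y ∈ Y, (∑ y' ∈ Y, if y = y' then (q : ℝ) * ∑ c, φ c ^ 2 else 0)
        = (q : ℝ) * ∑ c, φ c ^ 2 := by
      intro y hy
      rw [Finset.sum_ite_eq]
      simp [hy]
    rw [Finset.sum_congr rfl this, Finset.sum_const, nsmul_eq_mul]
    ring
  calc ∑ c, (∑ x ∈ X, ∑ y ∈ Y, φ (c - g * x * y)) ^ 2
      ≤ ∑ c : ZMod q, (X.card : ℝ) * ∑ x : ZMod q, (∑ y ∈ Y, φ (c - g * x * y)) ^ 2 :=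
        Finset.sum_le_sum (fun c _ => step1 c)
    _ = (X.card : ℝ) * ((q : ℝ) * Y.card * ∑ c, φ c ^ 2) := by
        rw [← Finset.mul_sum, key]
    _ = (q : ℝ) * X.card * Y.card * ∑ c, φ c ^ 2 := by ring

/-- number of representations -/
noncomputable def nrep {q : ℕ} (X Y : Finset (ZMod q)) (g : ℕ → ZMod q) : ℕ → ZMod q → ℝ
  | 0, c => if c = 0 then 1 else 0
  | t + 1, c => ∑ x ∈ X, ∑ y ∈ Y, nrep X Y g t (c - g t * x * y)

lemma nrep_nonneg {q : ℕ} (X Y : Finset (ZMod q)) (g : ℕ → ZMod q) (t : ℕ) (c : ZMod q) :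
    0 ≤ nrep X Y g t c := by
  induction t generalizing c with
  | zero => unfold nrep; split_ifs <;> norm_num
  | succ t ih =>
    unfold nrep
    exact Finset.sum_nonneg (fun x _ => Finset.sum_nonneg (fun y _ => ih _))

lemma nrep_error {q : ℕ} [Fact q.Prime] (X Y : Finset (ZMod q)) (g : ℕ → ZMod q)
    (hg : ∀ t, g t ≠ 0) (t : ℕ) :
    (∑ c, (nrep X Y g t c - ((X.card : ℝ) * Y.card) ^ t / q) = 0) ∧
    (∑ c, (nrep X Y g t c - ((X.card : ℝ) * Y.card) ^ t / q) ^ 2
      ≤ ((q : ℝ) * X.card * Y.card) ^ t) := by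
  classical
  have hq : (0 : ℝ) < q := by exact_mod_cast (Fact.out : q.Prime).pos
  have hq1 : (1 : ℝ) ≤ q := by exact_mod_cast (Fact.out : q.Prime).one_lt.le
  induction t with
  | zero =>
    have hs : ∑ c : ZMod q, nrep X Y g 0 c = 1 := by
      simp [nrep]
    constructor
    · rw [Finset.sum_sub_distrib, hs]
      simp only [pow_zero, Finset.sum_const, Finset.card_univ, ZMod.card, nsmul_eq_mul]
      field_simp
      ring
    · have hs2 : ∑ c : ZMod q, (nrep X Y g 0 c) ^ 2 = 1 := by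
        simp [nrep]
      have : ∑ c : ZMod q, (nrep X Y g 0 c - ((X.card : ℝ) * Y.card) ^ 0 / q) ^ 2
          = 1 - 1 / q := by
        simp only [pow_zero]
        have e : ∀ c : ZMod q, (nrep X Y g 0 c - 1 / (q : ℝ)) ^ 2
            = (nrep X Y g 0 c) ^ 2 - 2 * (1 / q) * nrep X Y g 0 c + (1 / q) ^ 2 := by
          intro c; ring
        simp_rw [e]
        rw [Finset.sum_add_distrib, Finset.sum_sub_distrib, ← Finset.mul_sum, hs, hs2]
        simp only [Finset.sum_const, Finset.card_univ, ZMod.card, nsmul_eq_mul]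
        field_simp
        ring
      rw [this]
      simp only [pow_zero]
      have : (0 : ℝ) ≤ 1 / q := by positivity
      linarith
  | succ t ih =>
    obtain ⟨ih1, ih2⟩ := ih
    set φ : ZMod q → ℝ := fun c => nrep X Y g t c - ((X.card : ℝ) * Y.card) ^ t / q with hφ
    have e : ∀ c, nrep X Y g (t + 1) c - ((X.card : ℝ) * Y.card) ^ (t + 1) / q
        = ∑ x ∈ X, ∑ y ∈ Y, φ (c - g t * x * y) := by
      intro c
      simp only [hφ, nrep, Finset.sum_sub_distrib, Finset.sum_const, nsmul_eq_mul]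
      ring
    simp_rw [e]
    constructor
    · rw [Finset.sum_comm]
      apply Finset.sum_eq_zero
      intro x _
      rw [Finset.sum_comm]
      apply Finset.sum_eq_zero
      intro y _
      rw [← ih1]
      exact Fintype.sum_equiv (Equiv.subRight (g t * x * y)) _ _ (fun c => rfl)
    · refine (l2_bound X Y (g t) (hg t) φ ih1).trans ?_
      calc (q : ℝ) * X.card * Y.card * ∑ c, φ c ^ 2
          ≤ (q : ℝ) * X.card * Y.card * ((q : ℝ) * X.card * Y.card) ^ t := by
            apply mul_le_mul_of_nonneg_left ih2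
            positivity
        _ = ((q : ℝ) * X.card * Y.card) ^ (t + 1) := by ring

lemma nrep_pos {q : ℕ} [Fact q.Prime] (X Y : Finset (ZMod q)) (g : ℕ → ZMod q)
    (hg : ∀ t, g t ≠ 0) (h : ℕ) (hbig : q ^ (h + 2) < (X.card * Y.card) ^ h) (c : ZMod q) :
    0 < nrep X Y g h c := by
  classical
  have hq : (0 : ℝ) < q := by exact_mod_cast (Fact.out : q.Prime).pos
  rcases (nrep_nonneg X Y g h c).lt_or_eq with hlt | heq
  · exact hlt
  · exfalso
    have h2 := (nrep_error X Y g hg h).2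
    have h3 : (nrep X Y g h c - ((X.card : ℝ) * Y.card) ^ h / q) ^ 2
        ≤ ((q : ℝ) * X.card * Y.card) ^ h :=
      (Finset.single_le_sum (f := fun c => (nrep X Y g h c - ((X.card : ℝ) * Y.card) ^ h / q) ^ 2)
        (fun c _ => sq_nonneg _) (Finset.mem_univ c)).trans h2
    rw [← heq] at h3
    set M : ℝ := ((X.card : ℝ) * Y.card) ^ h with hM
    have hbig' : (q : ℝ) ^ (h + 2) < M := by
      rw [hM]; exact_mod_cast hbig
    have h4 : ((q : ℝ) * X.card * Y.card) ^ h = (q : ℝ) ^ h * M := by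
      rw [hM, mul_assoc, mul_pow]
    rw [h4] at h3
    have hMpos : 0 < M := lt_of_le_of_lt (by positivity) hbig'
    have h5 : M ^ 2 ≤ (q : ℝ) ^ h * M * q ^ 2 := by
      have : (0 - M / q) ^ 2 = M ^ 2 / q ^ 2 := by ring
      rw [this, div_le_iff₀ (by positivity)] at h3
      exact h3
    have h6 : M ≤ (q : ℝ) ^ (h + 2) := by
      have : M * M ≤ (q : ℝ) ^ (h + 2) * M := by
        calc M * M = M ^ 2 := by ring
          _ ≤ (q : ℝ) ^ h * M * q ^ 2 := h5
          _ = (q : ℝ) ^ (h + 2) * M := by ring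
      exact le_of_mul_le_mul_right this hMpos
    linarith

end PartA

namespace PartA2

open Finset PartA

/-- numerator of the sum of reciprocals of a finite set -/
def numer (I : Finset ℕ) : ℕ := ∑ u ∈ I, ∏ v ∈ I.erase u, v

lemma numer_cast {q : ℕ} [Fact q.Prime] (I : Finset ℕ) (hI : ∀ u ∈ I, (u : ZMod q) ≠ 0) :
    (∑ u ∈ I, ((u : ZMod q))⁻¹) * (∏ u ∈ I, (u : ZMod q)) = (numer I : ZMod q) := by
  unfold numer
  push_cast
  rw [Finset.sum_mul]
  apply Finset.sum_congr rfl
  intro u hu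
  rw [← Finset.mul_prod_erase I _ hu, ← mul_assoc, inv_mul_cancel₀ (hI u hu), one_mul]

lemma numer_le {U r : ℕ} (I : Finset ℕ) (hI : ∀ u ∈ I, u ≤ U) (hc : I.card = r) :
    numer I ≤ r * U ^ (r - 1) := by
  unfold numer
  calc ∑ u ∈ I, ∏ v ∈ I.erase u, v ≤ ∑ u ∈ I, U ^ (r - 1) := by
        apply Finset.sum_le_sum
        intro u hu
        have := Finset.prod_le_pow_card (I.erase u) (fun v => v) U
          (fun v hv => hI v (Finset.mem_of_mem_erase hv))
        rwa [Finset.card_erase_of_mem hu, hc] at this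
    _ = r * U ^ (r - 1) := by rw [Finset.sum_const, hc, smul_eq_mul]

lemma not_dvd_numer (I : Finset ℕ) (hI : ∀ u ∈ I, u.Prime) (u : ℕ) (hu : u ∈ I) :
    ¬ u ∣ numer I := by
  intro h
  unfold numer at h
  rw [← Finset.add_sum_erase I _ hu] at h
  have h2 : u ∣ ∑ w ∈ I.erase u, ∏ v ∈ I.erase w, v := by
    apply Finset.dvd_sum
    intro w hw
    apply Finset.dvd_prod_of_mem (fun v => v)
    rw [Finset.mem_erase] at hw ⊢
    exact ⟨fun h => hw.1 h.symm, hu⟩
  have h3 : u ∣ ∏ v ∈ I.erase u, v := (Nat.dvd_add_left h2).mp h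
  have hup := hI u hu
  rw [Prime.dvd_finsetProd_iff hup.prime] at h3
  obtain ⟨v, hv, huv⟩ := h3
  rw [Finset.mem_erase] at hv
  exact hv.1 ((Nat.prime_dvd_prime_iff_eq hup (hI v hv.2)).mp huv).symm

lemma inj_recip {q U r : ℕ} [Fact q.Prime] (hr : 1 ≤ r) (hq : r * U ^ (2 * r - 1) < q)
    (I J : Finset ℕ) (hI : ∀ u ∈ I, u.Prime ∧ u ≤ U) (hJ : ∀ u ∈ J, u.Prime ∧ u ≤ U)
    (cI : I.card = r) (cJ : J.card = r)
    (h : ∑ u ∈ I, ((u : ZMod q))⁻¹ = ∑ u ∈ J, ((u : ZMod q))⁻¹) : I = J := by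
  have hlt : ∀ u : ℕ, u.Prime → u ≤ U → (u : ZMod q) ≠ 0 := by
    intro u hu huU h0
    rw [ZMod.natCast_eq_zero_iff] at h0
    have h1 : q ≤ u := Nat.le_of_dvd hu.pos h0
    have hU : 1 ≤ U := hu.one_lt.le.trans huU
    have h2 : U ≤ U ^ (2 * r - 1) := Nat.le_self_pow (by omega) U
    have h3 : U ^ (2 * r - 1) ≤ r * U ^ (2 * r - 1) := Nat.le_mul_of_pos_left _ (by omega)
    omega
  have hI0 : ∀ u ∈ I, (u : ZMod q) ≠ 0 := fun u hu => hlt u (hI u hu).1 (hI u hu).2
  have hJ0 : ∀ u ∈ J, (u : ZMod q) ≠ 0 := fun u hu => hlt u (hJ u hu).1 (hJ u hu).2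
  have e1 := numer_cast I hI0
  have e2 := numer_cast J hJ0
  have e3 : ((numer I * ∏ u ∈ J, u : ℕ) : ZMod q) = ((numer J * ∏ u ∈ I, u : ℕ) : ZMod q) := by
    push_cast
    rw [← e1, ← e2, h]
    ring
  have b1 : ∀ K L : Finset ℕ, (∀ u ∈ K, u.Prime ∧ u ≤ U) → (∀ u ∈ L, u.Prime ∧ u ≤ U) →
      K.card = r → L.card = r → numer K * ∏ u ∈ L, u < q := by
    intro K L hK hL cK cL
    refine lt_of_le_of_lt ?_ hq
    have h1 := numer_le K (fun u hu => (hK u hu).2) cK
    have h2 := Finset.prod_le_pow_card L (fun v => v) U (fun v hv => (hL v hv).2)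
    rw [cL] at h2
    calc numer K * ∏ u ∈ L, u ≤ (r * U ^ (r - 1)) * U ^ r := Nat.mul_le_mul h1 h2
      _ = r * U ^ (2 * r - 1) := by
        rw [mul_assoc, ← pow_add]
        congr 2
        omega
  have e4 : numer I * ∏ u ∈ J, u = numer J * ∏ u ∈ I, u := by
    rw [ZMod.natCast_eq_natCast_iff'] at e3
    rwa [Nat.mod_eq_of_lt (b1 I J hI hJ cI cJ), Nat.mod_eq_of_lt (b1 J I hJ hI cJ cI)] at e3
  have hsub : I ⊆ J := by
    intro u hu
    have hup := (hI u hu).1
    have h1 : u ∣ numer I * ∏ u ∈ J, u := by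
      rw [e4]
      exact Dvd.dvd.mul_left (Finset.dvd_prod_of_mem (fun v => v) hu) _
    rcases (Nat.Prime.dvd_mul hup).mp h1 with h2 | h2
    · exact absurd h2 (not_dvd_numer I (fun u hu => (hI u hu).1) u hu)
    · rw [Prime.dvd_finsetProd_iff hup.prime] at h2
      obtain ⟨v, hv, huv⟩ := h2
      have := (Nat.prime_dvd_prime_iff_eq hup (hJ v hv).1).mp huv
      rwa [this]
  exact Finset.eq_of_subset_of_card_le hsub (by rw [cI, cJ])

lemma cover {q U r h : ℕ} [Fact q.Prime] (hr : 1 ≤ r) (hq : r * U ^ (2 * r - 1) < q)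
    (S T : Finset ℕ) (hS : ∀ u ∈ S, u.Prime ∧ u ≤ U ∧ u ≠ 2) (hT : ∀ u ∈ T, u.Prime ∧ u ≤ U ∧ u ≠ 2)
    (hST : Disjoint S T) (h2q : 2 < q)
    (hbig : q ^ (h + 2) < ((S.card.choose r) * (T.card.choose r)) ^ h) (c : ZMod q) :
    ∃ K : Finset ℕ, (∀ n ∈ K, ∃ s < h, ∃ u ∈ S, ∃ v ∈ T, n = 2 ^ s * (u * v)) ∧
      (∑ n ∈ K, ((n : ZMod q))⁻¹ = c) ∧ K.card ≤ h * r ^ 2 := by
  classical
  set F : Finset ℕ → ZMod q := fun I => ∑ u ∈ I, ((u : ZMod q))⁻¹ with hF
  set X := (S.powersetCard r).image F with hX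
  set Y := (T.powersetCard r).image F with hY
  have cX : X.card = S.card.choose r := by
    rw [hX, Finset.card_image_of_injOn, Finset.card_powersetCard]
    intro I hI J hJ hIJ
    rw [Finset.mem_coe, Finset.mem_powersetCard] at hI hJ
    exact inj_recip hr hq I J (fun u hu => ⟨(hS u (hI.1 hu)).1, (hS u (hI.1 hu)).2.1⟩)
      (fun u hu => ⟨(hS u (hJ.1 hu)).1, (hS u (hJ.1 hu)).2.1⟩) hI.2 hJ.2 hIJ
  have cY : Y.card = T.card.choose r := by
    rw [hY, Finset.card_image_of_injOn, Finset.card_powersetCard]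
    intro I hI J hJ hIJ
    rw [Finset.mem_coe, Finset.mem_powersetCard] at hI hJ
    exact inj_recip hr hq I J (fun u hu => ⟨(hT u (hI.1 hu)).1, (hT u (hI.1 hu)).2.1⟩)
      (fun u hu => ⟨(hT u (hJ.1 hu)).1, (hT u (hJ.1 hu)).2.1⟩) hI.2 hJ.2 hIJ
  have h2 : (2 : ZMod q) ≠ 0 := by
    intro h0
    have : ((2 : ℕ) : ZMod q) = 0 := by exact_mod_cast h0
    rw [ZMod.natCast_eq_zero_iff] at this
    exact absurd (Nat.le_of_dvd (by norm_num) this) (by omega)
  set g : ℕ → ZMod q := fun t => ((2 : ZMod q) ^ t)⁻¹ with hg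
  have hg0 : ∀ t, g t ≠ 0 := fun t => inv_ne_zero (pow_ne_zero t h2)
  have hpos := nrep_pos X Y g hg0 h (by rw [cX, cY]; exact hbig) c
  have main : ∀ t : ℕ, ∀ c : ZMod q, 0 < nrep X Y g t c →
      ∃ K : Finset ℕ, (∀ n ∈ K, ∃ s < t, ∃ u ∈ S, ∃ v ∈ T, n = 2 ^ s * (u * v)) ∧
      (∑ n ∈ K, ((n : ZMod q))⁻¹ = c) ∧ K.card ≤ t * r ^ 2 := by
    intro t
    induction t with
    | zero =>
      intro c hc
      refine ⟨∅, by simp, ?_, by simp⟩
      unfold nrep at hc
      split_ifs at hc with h0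
      · simp [h0]
      · exact absurd hc (lt_irrefl _)
    | succ t ih =>
      intro c hc
      unfold nrep at hc
      obtain ⟨x, hx, hx2⟩ : ∃ x ∈ X, 0 < ∑ y ∈ Y, nrep X Y g t (c - g t * x * y) := by
        by_contra hcon
        push Not at hcon
        exact absurd hc (not_lt.mpr (Finset.sum_nonpos hcon))
      obtain ⟨y, hy, hy2⟩ : ∃ y ∈ Y, 0 < nrep X Y g t (c - g t * x * y) := by
        by_contra hcon
        push Not at hcon
        exact absurd hx2 (not_lt.mpr (Finset.sum_nonpos hcon))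
      obtain ⟨K, hK1, hK2, hK3⟩ := ih _ hy2
      rw [hX, Finset.mem_image] at hx
      obtain ⟨I, hI, rfl⟩ := hx
      rw [hY, Finset.mem_image] at hy
      obtain ⟨J, hJ, rfl⟩ := hy
      rw [Finset.mem_powersetCard] at hI hJ
      set f : ℕ × ℕ → ℕ := fun w => 2 ^ t * (w.1 * w.2) with hf
      have finj : Set.InjOn f (I ×ˢ J : Finset (ℕ × ℕ)) := by
        rintro ⟨u, v⟩ huv ⟨u', v'⟩ huv' heq
        rw [Finset.mem_coe, Finset.mem_product] at huv huv'
        simp only [hf] at heq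
        have h5 : u * v = u' * v' := Nat.eq_of_mul_eq_mul_left (by positivity) heq
        have pu := (hS u (hI.1 huv.1)).1
        have pu' := (hS u' (hI.1 huv'.1)).1
        have pv' := (hT v' (hJ.1 huv'.2)).1
        have h6 : u ∣ u' * v' := by rw [← h5]; exact Dvd.intro _ rfl
        have huu : u = u' := by
          rcases (Nat.Prime.dvd_mul pu).mp h6 with h7 | h7
          · exact (Nat.prime_dvd_prime_iff_eq pu pu').mp h7
          · exfalso
            have h8 := (Nat.prime_dvd_prime_iff_eq pu pv').mp h7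
            have h9 : u ∈ S := hI.1 huv.1
            have h10 : u ∈ T := by rw [h8]; exact hJ.1 huv'.2
            exact (Finset.disjoint_left.mp hST h9) h10
        subst huu
        have : v = v' := Nat.eq_of_mul_eq_mul_left pu.pos h5
        subst this
        rfl
      set K' := (I ×ˢ J).image f with hK'
      have hdisj : Disjoint K K' := by
        rw [Finset.disjoint_left]
        intro n hn hn'
        obtain ⟨s, hs, u, hu, v, hv, hn1⟩ := hK1 n hn
        rw [hK', Finset.mem_image] at hn'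
        obtain ⟨⟨u', v'⟩, _, hn2⟩ := hn'
        simp only [hf] at hn2
        rw [hn1] at hn2
        have hodd : ¬ 2 ∣ u * v := by
          intro h5
          rcases (Nat.Prime.dvd_mul Nat.prime_two).mp h5 with h6 | h6
          · exact (hS u hu).2.2 ((Nat.prime_dvd_prime_iff_eq Nat.prime_two (hS u hu).1).mp h6).symm
          · exact (hT v hv).2.2 ((Nat.prime_dvd_prime_iff_eq Nat.prime_two (hT v hv).1).mp h6).symm
        apply hodd
        obtain ⟨e, rfl⟩ : ∃ e, t = s + 1 + e := ⟨t - s - 1, by omega⟩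
        have h6 : u * v = 2 * (2 ^ e * (u' * v')) := by
          apply Nat.eq_of_mul_eq_mul_left (show 0 < 2 ^ s by positivity)
          rw [← hn2]
          ring
        exact ⟨_, h6⟩
      refine ⟨K ∪ K', ?_, ?_, ?_⟩
      · intro n hn
        rw [Finset.mem_union] at hn
        rcases hn with hn | hn
        · obtain ⟨s, hs, rest⟩ := hK1 n hn
          exact ⟨s, by omega, rest⟩
        · rw [hK', Finset.mem_image] at hn
          obtain ⟨⟨u, v⟩, huv, hn2⟩ := hn
          rw [Finset.mem_product] at huv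
          exact ⟨t, by omega, u, hI.1 huv.1, v, hJ.1 huv.2, hn2.symm⟩
      · rw [Finset.sum_union hdisj, hK2, hK', Finset.sum_image finj]
        have : ∑ w ∈ I ×ˢ J, ((f w : ℕ) : ZMod q)⁻¹ = g t * F I * F J := by
          rw [Finset.sum_product]
          simp only [hf, hF, hg]
          rw [mul_assoc, Finset.sum_mul_sum, Finset.mul_sum]
          apply Finset.sum_congr rfl
          intro u _
          rw [Finset.mul_sum]
          apply Finset.sum_congr rfl
          intro v _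
          push_cast
          rw [mul_inv, mul_inv]
        rw [this]
        ring
      · calc (K ∪ K').card ≤ K.card + K'.card := Finset.card_union_le _ _
          _ ≤ t * r ^ 2 + r ^ 2 := by
            apply Nat.add_le_add hK3
            calc K'.card ≤ (I ×ˢ J).card := Finset.card_image_le
              _ = r ^ 2 := by rw [Finset.card_product, hI.2, hJ.2]; ring
          _ = (t + 1) * r ^ 2 := by ring
  exact main h c hpos

end PartA2

namespace PartA3

open Finset Filter Topology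

/-- prime counting lower bound in power form -/
lemma pi_lower (a : ℝ) (ha : 0 < a) (C : ℝ) (hC : 0 < C) :
    ∀ᶠ n : ℕ in atTop, C * (n : ℝ) ^ (1 - a) ≤ (Nat.primeCounting n : ℝ) := by
  have hlog2 : 0 < Real.log 2 := Real.log_pos (by norm_num)
  set e : ℝ := Real.log 2 / (4 * C) with he
  have hepos : 0 < e := by positivity
  have h1 : ∀ᶠ x : ℝ in atTop, ‖Real.log x‖ ≤ e * ‖x ^ a‖ :=
    (isLittleO_log_rpow_atTop ha).bound hepos
  have h2 : ∀ᶠ x : ℝ in atTop, ‖Real.log x‖ ≤ (Real.log 2 / 8) * ‖id x‖ :=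
    (Real.isLittleO_log_id_atTop).bound (by positivity)
  have t1 : Tendsto (fun n : ℕ => (n : ℝ)) atTop atTop := tendsto_natCast_atTop_atTop
  have t2 : Tendsto (fun n : ℕ => ((n : ℝ) + 1)) atTop atTop :=
    tendsto_atTop_add_const_right _ _ t1
  filter_upwards [t1.eventually h1, t2.eventually h2, eventually_ge_atTop 3] with n hn1 hn2 hn3
  have hn3' : (3 : ℝ) ≤ n := by exact_mod_cast hn3
  have hlogn : 0 < Real.log n := Real.log_pos (by linarith)
  have hlogn1 : 0 < Real.log (n + 1) := Real.log_pos (by linarith)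
  have hxa : 0 < (n : ℝ) ^ a := Real.rpow_pos_of_pos (by linarith) a
  rw [Real.norm_of_nonneg hlogn.le, Real.norm_of_nonneg hxa.le] at hn1
  rw [Real.norm_of_nonneg hlogn1.le, id, Real.norm_of_nonneg (by linarith)] at hn2
  have h3 := Chebyshev.pi_ge n
  rw [div_le_iff₀ hlogn] at h3
  have hsplit : (n : ℝ) ^ (1 - a) * (n : ℝ) ^ a = n := by
    rw [← Real.rpow_add (by linarith)]
    simp
  have hpos1 : 0 < (n : ℝ) ^ (1 - a) := Real.rpow_pos_of_pos (by linarith) _
  have h4 : C * (n : ℝ) ^ (1 - a) * Real.log n ≤ n * Real.log 2 - Real.log (n + 1) := by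
    have h5 : C * (n : ℝ) ^ (1 - a) * Real.log n ≤ C * (n : ℝ) ^ (1 - a) * (e * (n : ℝ) ^ a) := by
      apply mul_le_mul_of_nonneg_left hn1
      positivity
    have h6 : C * (n : ℝ) ^ (1 - a) * (e * (n : ℝ) ^ a) = n * Real.log 2 / 4 := by
      calc C * (n : ℝ) ^ (1 - a) * (e * (n : ℝ) ^ a)
          = C * e * ((n : ℝ) ^ (1 - a) * (n : ℝ) ^ a) := by ring
        _ = C * e * n := by rw [hsplit]
        _ = n * Real.log 2 / 4 := by rw [he]; field_simp
    nlinarith
  have h7 : C * (n : ℝ) ^ (1 - a) * Real.log n ≤ (Nat.primeCounting n : ℝ) * Real.log n :=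
    h4.trans h3
  exact le_of_mul_le_mul_right h7 hlogn

/-- two disjoint large sets of primes between the square root of U and U. -/
lemma primes_sets (r : ℕ) (hr : 1 ≤ r) (b : ℕ) :
    ∀ᶠ U : ℕ in atTop, ∃ S T : Finset ℕ, Disjoint S T ∧ S.card = T.card ∧
      (∀ u ∈ S, u.Prime ∧ u ≤ U ∧ Nat.sqrt U < u ∧ b < u ∧ u ≠ 2) ∧
      (∀ u ∈ T, u.Prime ∧ u ≤ U ∧ Nat.sqrt U < u ∧ b < u ∧ u ≠ 2) ∧
      U ^ (8 * r - 1) ≤ (S.card + 1 - r) ^ (8 * r) := by
  have hr' : (1 : ℝ) ≤ r := by exact_mod_cast hr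
  set a : ℝ := 1 / (8 * r) with ha
  have ha0 : 0 < a := by positivity
  have ha8 : a ≤ 1 / 8 := by
    rw [ha]
    apply div_le_div_of_nonneg_left (by norm_num) (by norm_num)
    linarith
  have hC : (0 : ℝ) < 2 * r + 6 := by positivity
  filter_upwards [pi_lower a ha0 (2 * r + 6) hC, eventually_ge_atTop 16,
    eventually_ge_atTop ((b + 2) ^ 2)] with U hU hU16 hUb
  have hU1 : (1 : ℝ) ≤ U := by
    have : 1 ≤ U := by omega
    exact_mod_cast this
  set s := Nat.sqrt U with hs
  have hsb : b + 2 ≤ s := by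
    rw [hs, Nat.le_sqrt]
    nlinarith
  have hsU : s ≤ U := Nat.sqrt_le_self U
  set P := (Nat.primesLE U).filter (fun p => s < p) with hP
  have hPcard : Nat.primeCounting U ≤ P.card + s := by
    have h1 : (Nat.primesLE U).card = Nat.primeCounting U := Nat.primesLE_card_eq_primeCounting U
    rw [← h1]
    have h2 : P.card + ((Nat.primesLE U).filter (fun p => ¬ s < p)).card
        = (Nat.primesLE U).card := by
      rw [hP]
      exact Finset.card_filter_add_card_filter_not (s := Nat.primesLE U) (fun p => s < p)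
    have h3 : ((Nat.primesLE U).filter (fun p => ¬ s < p)).card ≤ s := by
      calc ((Nat.primesLE U).filter (fun p => ¬ s < p)).card ≤ (Finset.Icc 1 s).card := by
            apply Finset.card_le_card
            intro p hp
            rw [Finset.mem_filter, Nat.mem_primesLE] at hp
            rw [Finset.mem_Icc]
            exact ⟨hp.1.2.one_lt.le, by omega⟩
        _ = s := by simp
    omega
  obtain ⟨S, hSP, hScard⟩ := Finset.exists_subset_card_eq (s := P) (n := P.card / 2) (by omega)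
  obtain ⟨T, hTP, hTcard⟩ := Finset.exists_subset_card_eq (s := P \ S) (n := P.card / 2) (by
    rw [Finset.card_sdiff_of_subset hSP]
    omega)
  have hmem : ∀ u ∈ P, u.Prime ∧ u ≤ U ∧ s < u ∧ b < u ∧ u ≠ 2 := by
    intro u hu
    rw [hP, Finset.mem_filter, Nat.mem_primesLE] at hu
    exact ⟨hu.1.2, hu.1.1, hu.2, by omega, by omega⟩
  refine ⟨S, T, ?_, by omega, fun u hu => hmem u (hSP hu), 
    fun u hu => hmem u (Finset.sdiff_subset (hTP hu)), ?_⟩
  · rw [Finset.disjoint_left]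
    intro u hu hu'
    exact (Finset.mem_sdiff.mp (hTP hu')).2 hu
  · have hpow1 : (1 : ℝ) ≤ (U : ℝ) ^ (1 - a) := Real.one_le_rpow hU1 (by linarith)
    have hsqrt : (s : ℝ) ≤ (U : ℝ) ^ (1 - a) := by
      have h1 : (s : ℝ) ≤ Real.sqrt U := Real.nat_sqrt_le_real_sqrt
      have h2 : Real.sqrt U ≤ (U : ℝ) ^ (1 - a) := by
        rw [Real.sqrt_eq_rpow]
        exact Real.rpow_le_rpow_of_exponent_le hU1 (by linarith)
      linarith
    have hw : (U : ℝ) ^ (1 - a) ≤ ((S.card + 1 - r : ℕ) : ℝ) := by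
      have h1 : (Nat.primeCounting U : ℝ) ≤ P.card + s := by exact_mod_cast hPcard
      have h2 : (P.card : ℝ) ≤ 2 * S.card + 1 := by
        have : P.card ≤ 2 * S.card + 1 := by omega
        exact_mod_cast this
      have h3 : (S.card : ℝ) + 1 - r ≤ ((S.card + 1 - r : ℕ) : ℝ) := by
        have : S.card + 1 ≤ (S.card + 1 - r) + r := by omega
        have h4 : ((S.card : ℝ) + 1) ≤ ((S.card + 1 - r : ℕ) : ℝ) + r := by exact_mod_cast this
        linarith
      nlinarith
    have h5 : ((U : ℝ) ^ (1 - a)) ^ (8 * r) = (U : ℝ) ^ (8 * r - 1 : ℕ) := by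
      rw [← Real.rpow_natCast ((U : ℝ) ^ (1 - a)) (8 * r), ← Real.rpow_mul (by linarith),
        ← Real.rpow_natCast (U : ℝ) (8 * r - 1)]
      congr 1
      rw [Nat.cast_sub (by omega), ha]
      push_cast
      field_simp
    have h6 : ((U : ℝ) ^ (8 * r - 1 : ℕ)) ≤ ((S.card + 1 - r : ℕ) : ℝ) ^ (8 * r) := by
      rw [← h5]
      exact pow_le_pow_left₀ (by positivity) hw _
    exact_mod_cast h6

end PartA3

namespace PartA4

open Finset Filter Topology

lemma big_ineq (r U q w c : ℕ) (hr : 1 ≤ r)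
    (hw : U ^ (8 * r - 1) ≤ w ^ (8 * r)) (hc : w ^ r ≤ r.factorial * c)
    (hq : q ≤ r * (2 * U) ^ (2 * r - 1))
    (hU : (r.factorial) ^ (16 * r) * (r ^ (8 * r + 2) * 2 ^ ((2 * r - 1) * (8 * r + 2))) < U) :
    q ^ (8 * r + 2) < (c * c) ^ (8 * r) := by
  have hU0 : 0 < U := by omega
  have hf : 0 < (r.factorial) ^ (16 * r) := pow_pos (Nat.factorial_pos r) _
  have h1 : (r.factorial) ^ (16 * r) * (c * c) ^ (8 * r) = (r.factorial * c) ^ (16 * r) := by
    rw [mul_pow (r.factorial) c, ← sq, ← pow_mul]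
    congr 2
    ring
  have h2 : U ^ ((8 * r - 1) * (2 * r)) ≤ (r.factorial * c) ^ (16 * r) := by
    calc U ^ ((8 * r - 1) * (2 * r)) = (U ^ (8 * r - 1)) ^ (2 * r) := by rw [pow_mul]
      _ ≤ (w ^ (8 * r)) ^ (2 * r) := Nat.pow_le_pow_left hw _
      _ = (w ^ r) ^ (16 * r) := by
        rw [← pow_mul, ← pow_mul]
        congr 1
        ring
      _ ≤ (r.factorial * c) ^ (16 * r) := Nat.pow_le_pow_left hc _
  have h3 : (r.factorial) ^ (16 * r) * q ^ (8 * r + 2)
      < U ^ ((2 * r - 1) * (8 * r + 2) + 1) := by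
    calc (r.factorial) ^ (16 * r) * q ^ (8 * r + 2)
        ≤ (r.factorial) ^ (16 * r) * (r * (2 * U) ^ (2 * r - 1)) ^ (8 * r + 2) := by
          apply Nat.mul_le_mul_left
          exact Nat.pow_le_pow_left hq _
      _ = ((r.factorial) ^ (16 * r) * (r ^ (8 * r + 2) * 2 ^ ((2 * r - 1) * (8 * r + 2))))
          * U ^ ((2 * r - 1) * (8 * r + 2)) := by
          rw [mul_pow, ← pow_mul, mul_pow]
          ring
      _ < U * U ^ ((2 * r - 1) * (8 * r + 2)) := by
          apply Nat.mul_lt_mul_of_pos_right hU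
          positivity
      _ = U ^ ((2 * r - 1) * (8 * r + 2) + 1) := by
          rw [pow_succ]
          ring
  have h4 : U ^ ((2 * r - 1) * (8 * r + 2) + 1) ≤ U ^ ((8 * r - 1) * (2 * r)) := by
    apply Nat.pow_le_pow_right hU0
    obtain ⟨s, rfl⟩ : ∃ s, r = s + 1 := ⟨r - 1, by omega⟩
    have e1 : 2 * (s + 1) - 1 = 2 * s + 1 := by omega
    have e2 : 8 * (s + 1) - 1 = 8 * s + 7 := by omega
    rw [e1, e2]
    nlinarith
  have h5 : (r.factorial) ^ (16 * r) * q ^ (8 * r + 2)
      < (r.factorial) ^ (16 * r) * (c * c) ^ (8 * r) := by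
    rw [h1]
    omega
  exact Nat.lt_of_mul_lt_mul_left h5

theorem key (g : ℕ) (hg : 1 ≤ g) (b : ℕ) : ∃ q0 : ℕ, ∀ q ≥ q0, q.Prime → ∀ c : ZMod q,
    ∃ K : Finset ℕ, (∀ k ∈ K, 0 < k ∧ k ^ g < q ∧ ∀ p : ℕ, p.Prime → p ∣ k → p = 2 ∨ b < p) ∧
      (∑ k ∈ K, ((k : ZMod q))⁻¹ = c) ∧
      (∑ k ∈ K, (1 : ℝ) / k) ≤ (q : ℝ) ^ (-(1 / (2 * (g + 1)) : ℝ)) := by
  set r := g + 1 with hr
  have hr1 : 1 ≤ r := by omega
  obtain ⟨U0, hU0⟩ := Filter.eventually_atTop.mp (PartA3.primes_sets r hr1 b)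
  obtain ⟨C1, hC1⟩ : ∃ C1, C1 = (r.factorial) ^ (16 * r) *
    (r ^ (8 * r + 2) * 2 ^ ((2 * r - 1) * (8 * r + 2))) := ⟨_, rfl⟩
  obtain ⟨C2, hC2⟩ : ∃ C2, C2 = 2 ^ (8 * r * g) := ⟨_, rfl⟩
  obtain ⟨C3, hC3⟩ : ∃ C3, C3 = r * 2 ^ (2 * r - 1) * (8 * r ^ 3) ^ (2 * r) := ⟨_, rfl⟩
  obtain ⟨U1, hU1⟩ : ∃ U1, U1 = U0 + C1 + C2 + C3 + 3 := ⟨_, rfl⟩
  refine ⟨r * U1 ^ (2 * r - 1) + 3, ?_⟩
  intro q hq hqp c
  have : Fact q.Prime := ⟨hqp⟩
  have hself : ∀ U : ℕ, U ≤ U ^ (2 * r - 1) := fun U => Nat.le_self_pow (by omega) U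
  have hself2 : ∀ U : ℕ, U ≤ r * U ^ (2 * r - 1) := fun U =>
    (hself U).trans (Nat.le_mul_of_pos_left _ (by omega))
  set U := Nat.findGreatest (fun U => r * U ^ (2 * r - 1) < q) q with hU
  have hU1q : U1 ≤ q := by
    have := hself2 U1
    omega
  have hUU1 : U1 ≤ U := Nat.le_findGreatest hU1q (by omega)
  have hPU : r * U ^ (2 * r - 1) < q := by
    have := Nat.findGreatest_spec (P := fun U => r * U ^ (2 * r - 1) < q) hU1q (by omega)
    exact this
  have hU1lt : U + 1 ≤ q := by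
    have := hself2 U
    omega
  have hnot : ¬ (r * (U + 1) ^ (2 * r - 1) < q) :=
    Nat.findGreatest_is_greatest (P := fun U => r * U ^ (2 * r - 1) < q) (Nat.lt_succ_self _) hU1lt
  clear_value U
  have hqle : q ≤ r * (2 * U) ^ (2 * r - 1) := by
    have h1 : (U + 1) ^ (2 * r - 1) ≤ (2 * U) ^ (2 * r - 1) := by
      apply Nat.pow_le_pow_left
      omega
    have h2 := Nat.mul_le_mul_left r h1
    omega
  obtain ⟨S, T, hST, hcard, hS, hT, hpow⟩ := hU0 U (by omega)
  have hchoose : (S.card + 1 - r) ^ r ≤ r.factorial * (S.card.choose r) := by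
    have h1 := Nat.pow_le_choose (α := ℝ) r S.card
    rw [div_le_iff₀ (by exact_mod_cast Nat.factorial_pos r)] at h1
    have h2 : (S.card + 1 - r) ^ r ≤ (S.card.choose r) * r.factorial := by exact_mod_cast h1
    rw [mul_comm]
    exact h2
  have hbig := big_ineq r U q (S.card + 1 - r) (S.card.choose r) hr1 hpow hchoose hqle
    (by rw [← hC1]; omega)
  obtain ⟨K, hK1, hK2, hK3⟩ := PartA2.cover (h := 8 * r) hr1 hPU S T
    (fun u hu => ⟨(hS u hu).1, (hS u hu).2.1, (hS u hu).2.2.2.2⟩)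
    (fun u hu => ⟨(hT u hu).1, (hT u hu).2.1, (hT u hu).2.2.2.2⟩) hST (by omega)
    (by rw [← hcard]; exact hbig) c
  have hUpos : 0 < U := by omega
  have hlow : ∀ k ∈ K, U ≤ k := by
    intro k hk
    obtain ⟨s, hs, u, hu, v, hv, rfl⟩ := hK1 k hk
    have h1 : Nat.sqrt U + 1 ≤ u := (hS u hu).2.2.1
    have h2 : Nat.sqrt U + 1 ≤ v := (hT v hv).2.2.1
    have h3 : U < (Nat.sqrt U + 1) * (Nat.sqrt U + 1) := Nat.lt_succ_sqrt U
    have h4 : (Nat.sqrt U + 1) * (Nat.sqrt U + 1) ≤ u * v := Nat.mul_le_mul h1 h2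
    have h5 : u * v ≤ 2 ^ s * (u * v) := Nat.le_mul_of_pos_left _ (by positivity)
    omega
  refine ⟨K, ?_, hK2, ?_⟩
  · intro k hk
    have hk0 := hlow k hk
    obtain ⟨s, hs, u, hu, v, hv, rfl⟩ := hK1 k hk
    refine ⟨by omega, ?_, ?_⟩
    · have h1 : u ≤ U := (hS u hu).2.1
      have h2 : v ≤ U := (hT v hv).2.1
      have h3 : 2 ^ s ≤ 2 ^ (8 * r) := Nat.pow_le_pow_right (by norm_num) hs.le
      calc (2 ^ s * (u * v)) ^ g ≤ (2 ^ (8 * r) * (U * U)) ^ g := by
            apply Nat.pow_le_pow_left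
            exact Nat.mul_le_mul h3 (Nat.mul_le_mul h1 h2)
        _ = C2 * U ^ (2 * g) := by
            rw [mul_pow, ← pow_mul, hC2, ← sq, ← pow_mul]
        _ ≤ U * U ^ (2 * g) := Nat.mul_le_mul_right _ (by omega)
        _ = U ^ (2 * r - 1) := by
            rw [hr, show 2 * (g + 1) - 1 = 2 * g + 1 by omega, pow_succ]
            ring
        _ ≤ r * U ^ (2 * r - 1) := Nat.le_mul_of_pos_left _ (by omega)
        _ < q := hPU
    · intro p hp hpd
      rcases (Nat.Prime.dvd_mul hp).mp hpd with h1 | h1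
      · left
        exact (Nat.prime_dvd_prime_iff_eq hp Nat.prime_two).mp (hp.dvd_of_dvd_pow h1)
      · right
        rcases (Nat.Prime.dvd_mul hp).mp h1 with h2 | h2
        · rw [(Nat.prime_dvd_prime_iff_eq hp (hS u hu).1).mp h2]
          exact (hS u hu).2.2.2.1
        · rw [(Nat.prime_dvd_prime_iff_eq hp (hT v hv).1).mp h2]
          exact (hT v hv).2.2.2.1
  · have hUr : (0 : ℝ) < U := by exact_mod_cast hUpos
    have hqr : (0 : ℝ) < q := by exact_mod_cast hqp.pos
    have h1 : (∑ k ∈ K, (1 : ℝ) / k) ≤ (8 * r ^ 3 : ℕ) / U := by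
      calc (∑ k ∈ K, (1 : ℝ) / k) ≤ ∑ k ∈ K, (1 : ℝ) / U := by
            apply Finset.sum_le_sum
            intro k hk
            apply one_div_le_one_div_of_le hUr
            exact_mod_cast hlow k hk
        _ = K.card / U := by rw [Finset.sum_const, nsmul_eq_mul]; ring
        _ ≤ (8 * r ^ 3 : ℕ) / U := by
            apply div_le_div_of_nonneg_right _ hUr.le
            have : K.card ≤ 8 * r ^ 3 := by
              calc K.card ≤ 8 * r * r ^ 2 := hK3
                _ = 8 * r ^ 3 := by ring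
            exact_mod_cast this
    refine h1.trans ?_
    have h2 : q * (8 * r ^ 3) ^ (2 * r) ≤ U ^ (2 * r) := by
      calc q * (8 * r ^ 3) ^ (2 * r) ≤ (r * (2 * U) ^ (2 * r - 1)) * (8 * r ^ 3) ^ (2 * r) :=
            Nat.mul_le_mul_right _ hqle
        _ = C3 * U ^ (2 * r - 1) := by
            rw [mul_pow, hC3]
            ring
        _ ≤ U * U ^ (2 * r - 1) := Nat.mul_le_mul_right _ (by omega)
        _ = U ^ (2 * r) := by
            rw [← pow_succ']
            congr 1
    have h3 : (q : ℝ) * ((8 * r ^ 3 : ℕ) : ℝ) ^ (2 * r) ≤ (U : ℝ) ^ (2 * r) := by exact_mod_cast h2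
    have h4 : (((8 * r ^ 3 : ℕ) : ℝ) / U) ^ (2 * r) ≤ (q : ℝ)⁻¹ := by
      rw [div_pow, div_le_iff₀ (by positivity), inv_mul_eq_div, le_div_iff₀ hqr]
      linarith
    have h5 : ((q : ℝ) ^ (-(1 / (2 * (g + 1)) : ℝ))) ^ (2 * r) = (q : ℝ)⁻¹ := by
      rw [← Real.rpow_natCast, ← Real.rpow_mul hqr.le, ← Real.rpow_neg_one]
      congr 1
      rw [hr]
      push_cast
      field_simp
    rw [← h5] at h4
    exact le_of_pow_le_pow_left₀ (by omega) (by positivity) h4

end PartA4

namespace PartB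

open Finset Filter Topology

/-- Uniform key lemma, all odd primes. -/
theorem ukl (g : ℕ) (hg : 1 ≤ g) (b : ℕ) : ∃ (M : ℕ) (W : ℕ → ℝ), (∀ n, 0 ≤ W n) ∧
    (∀ Z : ℕ, ∑ q ∈ (Finset.range Z).filter (fun q => q.Prime ∧ q ≠ 2), W q / ((q : ℝ) - 1)
      ≤ 1 / 2) ∧
    ∀ q : ℕ, q.Prime → q ≠ 2 → ∀ c : ZMod q, ∃ K : Finset ℕ,
      (∀ k ∈ K, 0 < k ∧ (k ≤ M ∨ k ^ g < q) ∧
        ∀ p : ℕ, p.Prime → p ∣ k → (p = 2 ∨ b < p) ∧ p < q) ∧
      (∑ k ∈ K, ((k : ZMod q))⁻¹ = c) ∧ (∑ k ∈ K, (1 : ℝ) / k) ≤ W q := by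
  obtain ⟨q0, hq0⟩ := PartA4.key g hg b
  set κ : ℝ := 1 / (2 * (g + 1)) with hκ
  have hκ0 : 0 < κ := by positivity
  have hsum : Summable (fun n : ℕ => 2 * (n : ℝ) ^ (-(1 + κ))) := by
    apply Summable.mul_left
    rw [Real.summable_nat_rpow]
    linarith
  obtain ⟨s, hs⟩ := summable_iff_vanishing_norm.mp hsum (1 / 4) (by norm_num)
  obtain ⟨q1, hq1⟩ : ∃ q1, q1 = q0 + s.sup id + 3 := ⟨_, rfl⟩
  have hq1s : ∀ n ∈ s, n < q1 := by
    intro n hn
    have : n ≤ s.sup id := Finset.le_sup (f := id) hn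
    omega
  set η : ℝ := 2 * (1 / 2) ^ (q1 + 3) with hη
  have hη0 : 0 < η := by positivity
  set W : ℕ → ℝ := fun q => if q < q1 then η else (q : ℝ) ^ (-κ) with hW
  refine ⟨2 ^ (q1 * (q1 + q1 + 3)), W, ?_, ?_, ?_⟩
  · intro n
    simp only [hW]
    split_ifs
    · exact hη0.le
    · positivity
  · intro Z
    rw [← Finset.sum_filter_add_sum_filter_not _ (fun q => q < q1)]
    have h1 : ∑ q ∈ ((Finset.range Z).filter (fun q => q.Prime ∧ q ≠ 2)).filter (fun q => q < q1),
        W q / ((q : ℝ) - 1) ≤ 1 / 4 := by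
      calc ∑ q ∈ ((Finset.range Z).filter (fun q => q.Prime ∧ q ≠ 2)).filter (fun q => q < q1),
          W q / ((q : ℝ) - 1)
          ≤ ∑ q ∈ ((Finset.range Z).filter (fun q => q.Prime ∧ q ≠ 2)).filter (fun q => q < q1),
            η := by
            apply Finset.sum_le_sum
            intro q hq
            simp only [Finset.mem_filter, Finset.mem_range] at hq
            simp only [hW, if_pos hq.2]
            have h2 : (2 : ℝ) ≤ q := by exact_mod_cast hq.1.2.1.two_le
            rw [div_le_iff₀ (by linarith)]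
            nlinarith
        _ ≤ ∑ q ∈ Finset.range q1, η := by
            apply Finset.sum_le_sum_of_subset_of_nonneg
            · intro q hq
              simp only [Finset.mem_filter, Finset.mem_range] at hq ⊢
              exact hq.2
            · intro _ _ _
              exact hη0.le
        _ = q1 * η := by rw [Finset.sum_const, Finset.card_range, nsmul_eq_mul]
        _ ≤ 1 / 4 := by
            have h3 : (q1 : ℝ) < 2 ^ q1 := by exact_mod_cast Nat.lt_two_pow_self
            rw [hη, pow_add]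
            have h4 : (q1 : ℝ) * (1 / 2) ^ q1 ≤ 1 := by
              rw [one_div, inv_pow, ← div_eq_mul_inv, div_le_one (by positivity)]
              exact h3.le
            nlinarith
    have h2 : ∑ q ∈ ((Finset.range Z).filter (fun q => q.Prime ∧ q ≠ 2)).filter
        (fun q => ¬ q < q1), W q / ((q : ℝ) - 1) ≤ 1 / 4 := by
      set t := ((Finset.range Z).filter (fun q => q.Prime ∧ q ≠ 2)).filter
        (fun q => ¬ q < q1) with ht
      have hdisj : Disjoint t s := by
        rw [Finset.disjoint_left]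
        intro n hn hn'
        have := hq1s n hn'
        simp only [ht, Finset.mem_filter] at hn
        exact hn.2 this
      have h3 := hs t hdisj
      calc ∑ q ∈ t, W q / ((q : ℝ) - 1) ≤ ∑ q ∈ t, 2 * (q : ℝ) ^ (-(1 + κ)) := by
            apply Finset.sum_le_sum
            intro q hq
            simp only [ht, Finset.mem_filter, Finset.mem_range] at hq
            simp only [hW, if_neg hq.2]
            have h2 : (2 : ℝ) ≤ q := by exact_mod_cast hq.1.2.1.two_le
            have hq0 : (0 : ℝ) < q := by linarith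
            rw [div_le_iff₀ (by linarith)]
            have e : (q : ℝ) ^ (-κ) = (q : ℝ) ^ (-(1 + κ)) * q := by
              rw [← Real.rpow_add_one (by linarith)]
              congr 1
              ring
            rw [e]
            have : 0 < (q : ℝ) ^ (-(1 + κ)) := Real.rpow_pos_of_pos hq0 _
            nlinarith
        _ ≤ ‖∑ q ∈ t, 2 * (q : ℝ) ^ (-(1 + κ))‖ := Real.le_norm_self _
        _ ≤ 1 / 4 := h3.le
    linarith
  · intro q hq hq2 c
    have hf : Fact q.Prime := ⟨hq⟩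
    by_cases hlt : q < q1
    · -- powers of two
      set m : ℕ → ℕ := fun i => (q - 1) * (i + (q1 + 3)) with hm
      have hq3 : 3 ≤ q := by
        have := hq.two_le
        omega
      have h2 : ((2 : ℕ) : ZMod q) ≠ 0 := by
        intro h0
        rw [ZMod.natCast_eq_zero_iff] at h0
        exact absurd (Nat.le_of_dvd (by norm_num) h0) (by omega)
      have hinj : Function.Injective (fun i => 2 ^ m i) := by
        intro i j hij
        have h3 : m i = m j := Nat.pow_right_injective (le_refl 2) hij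
        simp only [hm] at h3
        have h4 := Nat.eq_of_mul_eq_mul_left (by omega) h3
        omega
      refine ⟨(Finset.range c.val).image (fun i => 2 ^ m i), ?_, ?_, ?_⟩
      · intro k hk
        rw [Finset.mem_image] at hk
        obtain ⟨i, hi, rfl⟩ := hk
        rw [Finset.mem_range] at hi
        have hcv : c.val < q := ZMod.val_lt c
        refine ⟨by positivity, Or.inl ?_, ?_⟩
        · apply Nat.pow_le_pow_right (by norm_num)
          simp only [hm]
          apply Nat.mul_le_mul <;> omega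
        · intro p hp hpk
          have : p = 2 := (Nat.prime_dvd_prime_iff_eq hp Nat.prime_two).mp (hp.dvd_of_dvd_pow hpk)
          exact ⟨Or.inl this, by omega⟩
      · rw [Finset.sum_image (fun i _ j _ h => hinj h)]
        have : ∀ i ∈ Finset.range c.val, (((2 ^ m i : ℕ)) : ZMod q)⁻¹ = 1 := by
          intro i _
          simp only [hm]
          push_cast
          rw [pow_mul]
          have h5 : (2 : ZMod q) ^ (q - 1) = 1 := by
            apply ZMod.pow_card_sub_one_eq_one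
            exact_mod_cast h2
          rw [h5, one_pow, inv_one]
        rw [Finset.sum_congr rfl this, Finset.sum_const, Finset.card_range, nsmul_eq_mul, mul_one,
          ZMod.natCast_val, ZMod.cast_id]
      · rw [Finset.sum_image (fun i _ j _ h => hinj h)]
        simp only [hW, if_pos hlt]
        calc ∑ i ∈ Finset.range c.val, (1 : ℝ) / ((2 ^ m i : ℕ) : ℝ)
            ≤ ∑ i ∈ Finset.range c.val, (1 / 2 : ℝ) ^ (q1 + 3) * (1 / 2) ^ i := by
              apply Finset.sum_le_sum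
              intro i _
              push_cast
              rw [← one_div_pow, ← pow_add]
              apply pow_le_pow_of_le_one (by norm_num) (by norm_num)
              simp only [hm]
              calc q1 + 3 + i = 1 * (i + (q1 + 3)) := by ring
                _ ≤ (q - 1) * (i + (q1 + 3)) := Nat.mul_le_mul_right _ (by omega)
          _ = (1 / 2 : ℝ) ^ (q1 + 3) * ∑ i ∈ Finset.range c.val, (1 / 2 : ℝ) ^ i := by
              rw [Finset.mul_sum]
          _ ≤ (1 / 2 : ℝ) ^ (q1 + 3) * 2 := by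
              apply mul_le_mul_of_nonneg_left _ (by positivity)
              exact sum_geometric_two_le _
          _ = η := by rw [hη]; ring
    · obtain ⟨K, hK1, hK2, hK3⟩ := hq0 q (by omega) hq c
      refine ⟨K, ?_, hK2, ?_⟩
      · intro k hk
        obtain ⟨h1, h2, h3⟩ := hK1 k hk
        refine ⟨h1, Or.inr h2, fun p hp hpk => ⟨h3 p hp hpk, ?_⟩⟩
        have h4 : p ≤ k := Nat.le_of_dvd h1 hpk
        have h5 : k ≤ k ^ g := Nat.le_self_pow (by omega) k
        omega
      · simp only [hW, if_neg hlt]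
        exact hK3

end PartB

namespace PartB2

open Finset Filter Topology

/-- if `‖x‖_p < p^(j+1)` then `‖x‖_p ≤ p^j`. -/
lemma norm_le_of_lt {p : ℕ} [hp : Fact p.Prime] (x : ℚ) (j : ℕ)
    (h : padicNorm p x < (p : ℚ) ^ (j + 1)) : padicNorm p x ≤ (p : ℚ) ^ j := by
  by_cases hx : x = 0
  · rw [hx, padicNorm.zero]
    positivity
  · obtain ⟨z, hz⟩ := padicNorm.values_discrete (p := p) hx
    have hp1 : (1 : ℚ) < p := by exact_mod_cast hp.out.one_lt
    rw [hz] at h ⊢
    rw [← zpow_natCast (p : ℚ) j]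
    rw [← zpow_natCast (p : ℚ) (j + 1)] at h
    have := (zpow_lt_zpow_iff_right₀ hp1).mp h
    apply (zpow_le_zpow_iff_right₀ hp1).mpr
    push_cast at this
    omega

lemma norm_le_one_of_lt {p : ℕ} [hp : Fact p.Prime] (x : ℚ)
    (h : padicNorm p x < (p : ℚ)) : padicNorm p x ≤ 1 := by
  have := norm_le_of_lt (p := p) x 0 (by simpa using h)
  simpa using this

/-- if `‖x‖_p < 1` then `‖x‖_p ≤ 1/p`. -/
lemma norm_le_inv_of_lt_one {p : ℕ} [hp : Fact p.Prime] (x : ℚ)
    (h : padicNorm p x < 1) : padicNorm p x ≤ (p : ℚ)⁻¹ := by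
  by_cases hx : x = 0
  · rw [hx, padicNorm.zero]
    positivity
  · obtain ⟨z, hz⟩ := padicNorm.values_discrete (p := p) hx
    have hp1 : (1 : ℚ) < p := by exact_mod_cast hp.out.one_lt
    rw [hz] at h ⊢
    rw [← zpow_neg_one (p : ℚ)]
    rw [← zpow_zero (p : ℚ)] at h
    have := (zpow_lt_zpow_iff_right₀ hp1).mp h
    apply (zpow_le_zpow_iff_right₀ hp1).mpr
    omega

lemma norm_int_le {p : ℕ} [hp : Fact p.Prime] (z : ℤ) (h : (p : ℤ) ∣ z) :
    padicNorm p (z : ℚ) ≤ (p : ℚ)⁻¹ :=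
  norm_le_inv_of_lt_one _ ((padicNorm.int_lt_one_iff z).mpr h)

lemma norm_inv_nat {p : ℕ} [hp : Fact p.Prime] (k : ℕ) (h : ¬ p ∣ k) :
    padicNorm p ((1 : ℚ) / k) = 1 := by
  rw [padicNorm.div, padicNorm.one, (padicNorm.nat_eq_one_iff k).mpr h, div_one]

lemma norm_inv_nat_le {p : ℕ} [hp : Fact p.Prime] (k : ℕ) (hk : 0 < k) :
    padicNorm p ((1 : ℚ) / k) ≤ k := by
  have hk' : (k : ℚ) ≠ 0 := by positivity
  rw [padicNorm.div, padicNorm.one]
  have h1 : padicNorm p (k : ℚ) = (p : ℚ) ^ (-(padicValNat p k : ℤ)) := by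
    rw [padicNorm.eq_zpow_of_nonzero hk', padicValRat.of_nat]
  rw [h1, zpow_neg, one_div, inv_inv, zpow_natCast]
  exact_mod_cast Nat.le_of_dvd hk pow_padicValNat_dvd

/-- approximate a `p`-integral rational by an integer. -/
lemma approx {p : ℕ} [hp : Fact p.Prime] (y : ℚ) (hy : padicNorm p y ≤ 1) :
    ∃ m : ℤ, padicNorm p (y - m) ≤ (p : ℚ)⁻¹ := by
  have hden : ¬ p ∣ y.den := by
    intro hd
    have hnum : ¬ (p : ℤ) ∣ y.num := by
      intro hn
      have h1 : p ∣ y.num.natAbs := Int.natCast_dvd.mp hn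
      have h2 := Nat.dvd_gcd h1 hd
      rw [y.reduced] at h2
      exact hp.out.one_lt.ne' (Nat.dvd_one.mp h2)
    have h1 : padicNorm p (y.num : ℚ) = 1 := (padicNorm.int_eq_one_iff _).mpr hnum
    have h2 : padicNorm p (y.den : ℚ) < 1 := (padicNorm.nat_lt_one_iff _).mpr hd
    have h3 : padicNorm p y = padicNorm p (y.num : ℚ) / padicNorm p (y.den : ℚ) := by
      conv_lhs => rw [← Rat.num_div_den y]
      rw [padicNorm.div]
    have hd0 : (y.den : ℚ) ≠ 0 := by exact_mod_cast y.den_nz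
    have h4 : 0 < padicNorm p (y.den : ℚ) :=
      lt_of_le_of_ne (padicNorm.nonneg _) (padicNorm.nonzero hd0).symm
    rw [h3, h1, div_le_iff₀ h4] at hy
    linarith
  have hcop : IsCoprime (y.den : ℤ) (p : ℤ) := by
    rw [Nat.isCoprime_iff_coprime]
    exact ((Nat.Prime.coprime_iff_not_dvd hp.out).mpr hden).symm
  obtain ⟨u, v, huv⟩ := hcop
  refine ⟨y.num * u, ?_⟩
  have hd0 : (y.den : ℚ) ≠ 0 := by exact_mod_cast y.den_nz
  have e : y - ((y.num * u : ℤ) : ℚ) = ((y.num * (v * p) : ℤ) : ℚ) / (y.den : ℚ) := by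
    have h5 : (u : ℚ) * (y.den : ℚ) + v * p = 1 := by exact_mod_cast huv
    have h6 : y = (y.num : ℚ) / y.den := (Rat.num_div_den y).symm
    rw [eq_div_iff hd0]
    push_cast
    have h7 : y * y.den = y.num := Rat.mul_den_eq_num y
    calc (y - y.num * u) * y.den = y * y.den - y.num * (u * y.den) := by ring
      _ = y.num - y.num * (u * y.den) := by rw [h7]
      _ = y.num * (1 - u * y.den) := by ring
      _ = y.num * (v * p) := by rw [← h5]; ring
  rw [e, padicNorm.div, (padicNorm.nat_eq_one_iff _).mpr hden, div_one]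
  apply norm_int_le
  exact Dvd.dvd.mul_left (Dvd.intro_left _ rfl) _

lemma approx_inv {p : ℕ} [hp : Fact p.Prime] (k : ℕ) (hk : ¬ p ∣ k) :
    padicNorm p ((1 : ℚ) / k - ((((k : ZMod p))⁻¹).val : ℤ)) ≤ (p : ℚ)⁻¹ := by
  have hk0 : k ≠ 0 := by rintro rfl; exact hk (dvd_zero _)
  have hkq : (k : ℚ) ≠ 0 := by exact_mod_cast hk0
  have hkz : (k : ZMod p) ≠ 0 := by
    intro h0
    exact hk ((ZMod.natCast_eq_zero_iff _ _).mp h0)
  have e : (1 : ℚ) / k - ((((k : ZMod p))⁻¹).val : ℤ)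
      = ((1 - (((k : ZMod p))⁻¹).val * k : ℤ) : ℚ) / (k : ℚ) := by
    push_cast
    field_simp
  rw [e, padicNorm.div, (padicNorm.nat_eq_one_iff _).mpr hk, div_one]
  apply norm_int_le
  rw [← ZMod.intCast_zmod_eq_zero_iff_dvd]
  push_cast
  rw [ZMod.natCast_val, ZMod.cast_id, inv_mul_cancel₀ hkz, sub_self]

/-- one step: kill the top power of `q` in the denominator -/
lemma step {q : ℕ} [hq : Fact q.Prime] (j : ℕ) (z : ℚ)
    (hz : padicNorm q z ≤ (q : ℚ) ^ (j + 1)) :
    ∃ c : ZMod q, ∀ K : Finset ℕ, (∀ k ∈ K, ¬ q ∣ k) → ∑ k ∈ K, ((k : ZMod q))⁻¹ = c →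
      padicNorm q (z - ∑ k ∈ K, 1 / ((q ^ (j + 1) * k : ℕ) : ℚ)) ≤ (q : ℚ) ^ j := by
  have hq0 : (q : ℚ) ≠ 0 := by exact_mod_cast hq.out.ne_zero
  have hqpos : (0 : ℚ) < q := by exact_mod_cast hq.out.pos
  have hnq : ∀ i : ℕ, padicNorm q ((q : ℚ) ^ i) = ((q : ℚ) ^ i)⁻¹ := by
    intro i
    induction i with
    | zero => simp
    | succ i ih => rw [pow_succ, padicNorm.mul, ih, padicNorm.padicNorm_p_of_prime, mul_inv]
  obtain ⟨m, hm⟩ := approx (p := q) (z * (q : ℚ) ^ (j + 1)) (by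
    rw [padicNorm.mul, hnq]
    rw [← div_eq_mul_inv, div_le_one (by positivity)]
    exact hz)
  refine ⟨(m : ZMod q), ?_⟩
  intro K hK hsum
  have e : z - ∑ k ∈ K, 1 / ((q ^ (j + 1) * k : ℕ) : ℚ)
      = (z * (q : ℚ) ^ (j + 1) - ∑ k ∈ K, (1 : ℚ) / k) / (q : ℚ) ^ (j + 1) := by
    rw [sub_div, mul_div_assoc, div_self (by positivity), mul_one, Finset.sum_div]
    congr 1
    apply Finset.sum_congr rfl
    intro k _
    push_cast
    rw [div_div, mul_comm]
  rw [e, padicNorm.div, hnq, div_inv_eq_mul]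
  have main : padicNorm q (z * (q : ℚ) ^ (j + 1) - ∑ k ∈ K, (1 : ℚ) / k) ≤ (q : ℚ)⁻¹ := by
    have e2 : z * (q : ℚ) ^ (j + 1) - ∑ k ∈ K, (1 : ℚ) / k
        = (z * (q : ℚ) ^ (j + 1) - m) + (((m - ∑ k ∈ K, ((((k : ZMod q))⁻¹).val : ℤ) : ℤ) : ℚ)
          - ∑ k ∈ K, ((1 : ℚ) / k - ((((k : ZMod q))⁻¹).val : ℤ))) := by
      rw [Finset.sum_sub_distrib]
      push_cast
      ring
    rw [e2]
    refine (padicNorm.nonarchimedean).trans (max_le hm ?_)
    refine (padicNorm.sub).trans (max_le ?_ ?_)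
    · apply norm_int_le
      rw [← ZMod.intCast_zmod_eq_zero_iff_dvd]
      push_cast
      rw [← hsum, sub_eq_zero]
      apply Finset.sum_congr rfl
      intro k _
      rw [ZMod.natCast_val, ZMod.cast_id]
    · apply padicNorm.sum_le' _ (by positivity)
      intro k hk
      exact approx_inv k (hK k hk)
  calc padicNorm q (z * (q : ℚ) ^ (j + 1) - ∑ k ∈ K, (1 : ℚ) / k) * (q : ℚ) ^ (j + 1)
      ≤ (q : ℚ)⁻¹ * (q : ℚ) ^ (j + 1) := by
        apply mul_le_mul_of_nonneg_right main (by positivity)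
    _ = (q : ℚ) ^ j := by
        rw [pow_succ']
        field_simp

end PartB2

namespace PartB3

open Finset Filter Topology PartB2

/-- the auxiliary elements used at the prime `q` -/
def Aux (g b M q J n : ℕ) : Prop :=
  ∃ j k : ℕ, 1 ≤ j ∧ j ≤ J ∧ n = q ^ j * k ∧ 0 < k ∧ (k ≤ M ∨ k ^ g < q) ∧
    ∀ p : ℕ, p.Prime → p ∣ k → (p = 2 ∨ b < p) ∧ p < q

lemma prime_step {g b M : ℕ} {w : ℝ} (q : ℕ) (hq : q.Prime)
    (hK : ∀ c : ZMod q, ∃ K : Finset ℕ,
      (∀ k ∈ K, 0 < k ∧ (k ≤ M ∨ k ^ g < q) ∧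
        ∀ p : ℕ, p.Prime → p ∣ k → (p = 2 ∨ b < p) ∧ p < q) ∧
      (∑ k ∈ K, ((k : ZMod q))⁻¹ = c) ∧ (∑ k ∈ K, (1 : ℝ) / k) ≤ w)
    (J : ℕ) (z : ℚ) (hz : padicNorm q z ≤ (q : ℚ) ^ J) :
    ∃ F : Finset ℕ, (∀ n ∈ F, Aux g b M q J n) ∧
      padicNorm q (z - ∑ n ∈ F, (1 : ℚ) / n) ≤ 1 ∧
      (∑ n ∈ F, (1 : ℝ) / n) ≤ w * ∑ j ∈ Finset.range J, (1 / (q : ℝ)) ^ (j + 1) := by
  have hf : Fact q.Prime := ⟨hq⟩
  have hqr : (0 : ℝ) < q := by exact_mod_cast hq.pos
  induction J generalizing z with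
  | zero =>
    refine ⟨∅, by simp, by simpa using hz, by simp⟩
  | succ J ih =>
    obtain ⟨c, hc⟩ := step J z hz
    obtain ⟨K, hK1, hK2, hK3⟩ := hK c
    have hKq : ∀ k ∈ K, ¬ q ∣ k := by
      intro k hk hqk
      have := ((hK1 k hk).2.2 q hq hqk).2
      exact lt_irrefl _ this
    have h1 := hc K hKq hK2
    obtain ⟨F, hF1, hF2, hF3⟩ := ih _ h1
    have hinj : Set.InjOn (fun k => q ^ (J + 1) * k) (K : Set ℕ) := by
      intro a _ b _ hab
      exact Nat.eq_of_mul_eq_mul_left (pow_pos hq.pos _) hab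
    set F' := K.image (fun k => q ^ (J + 1) * k) with hF'
    have hdisj : Disjoint F' F := by
      rw [Finset.disjoint_left]
      intro n hn hn'
      rw [hF', Finset.mem_image] at hn
      obtain ⟨k, hk, hn1⟩ := hn
      obtain ⟨j, k', hj1, hjJ, hn2, hk'0, _, hk'⟩ := hF1 n hn'
      have hqk' : ¬ q ∣ k' := fun h => lt_irrefl _ (hk' q hq h).2
      apply hqk'
      obtain ⟨e, he⟩ : ∃ e, J + 1 = j + 1 + e := ⟨J - j, by omega⟩
      have h5 : k' = q * (q ^ e * k) := by
        apply Nat.eq_of_mul_eq_mul_left (pow_pos hq.pos j)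
        rw [← hn2, ← hn1]
        rw [he]
        ring
      exact ⟨_, h5⟩
    have hsumQ : ∑ n ∈ F', (1 : ℚ) / n = ∑ k ∈ K, 1 / ((q ^ (J + 1) * k : ℕ) : ℚ) := by
      rw [hF', Finset.sum_image hinj]
    have hsumR : ∑ n ∈ F', (1 : ℝ) / n ≤ w * (1 / (q : ℝ)) ^ (J + 1) := by
      rw [hF', Finset.sum_image hinj]
      have : ∀ k ∈ K, (1 : ℝ) / ((q ^ (J + 1) * k : ℕ) : ℝ)
          = (1 / (k : ℝ)) * (1 / (q : ℝ)) ^ (J + 1) := by
        intro k _
        push_cast
        rw [one_div_pow, one_div_mul_one_div, mul_comm]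
      rw [Finset.sum_congr rfl this, ← Finset.sum_mul]
      apply mul_le_mul_of_nonneg_right hK3 (by positivity)
    refine ⟨F' ∪ F, ?_, ?_, ?_⟩
    · intro n hn
      rw [Finset.mem_union] at hn
      rcases hn with hn | hn
      · rw [hF', Finset.mem_image] at hn
        obtain ⟨k, hk, hn1⟩ := hn
        obtain ⟨h2, h3, h4⟩ := hK1 k hk
        exact ⟨J + 1, k, by omega, le_refl _, hn1.symm, h2, h3, h4⟩
      · obtain ⟨j, k', hj1, hjJ, rest⟩ := hF1 n hn
        exact ⟨j, k', hj1, by omega, rest⟩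
    · rw [Finset.sum_union hdisj, hsumQ, ← sub_sub]
      exact hF2
    · rw [Finset.sum_union hdisj, Finset.sum_range_succ, mul_add]
      linarith

/-- the process over all odd primes -/
lemma process {g b M : ℕ} {W : ℕ → ℝ} (hg : 1 ≤ g) (hW0 : ∀ n, 0 ≤ W n)
    (hK : ∀ q : ℕ, q.Prime → q ≠ 2 → ∀ c : ZMod q, ∃ K : Finset ℕ,
      (∀ k ∈ K, 0 < k ∧ (k ≤ M ∨ k ^ g < q) ∧
        ∀ p : ℕ, p.Prime → p ∣ k → (p = 2 ∨ b < p) ∧ p < q) ∧
      (∑ k ∈ K, ((k : ZMod q))⁻¹ = c) ∧ (∑ k ∈ K, (1 : ℝ) / k) ≤ W q)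
    (B : Finset ℕ) (hB : ∀ p ∈ B, p.Prime ∧ p ≠ 2 ∧ p ≤ b) (Y : ℕ) (hMY : M ≤ Y) (hY : 2 ≤ Y)
    (z : ℚ) (hz : ∀ p : ℕ, p.Prime → padicNorm p z ≤ Y)
    (hzB : ∀ p ∈ B, padicNorm p z ≤ 1) (d : ℕ) :
    ∃ F : Finset ℕ, (∀ n ∈ F, ∃ q J : ℕ, q.Prime ∧ q ≠ 2 ∧ q ∉ B ∧ Y + 1 - d ≤ q ∧ q ^ J ≤ Y ∧
        Aux g b M q J n) ∧
      (∀ p : ℕ, p.Prime → 3 ≤ p → Y + 1 - d ≤ p → padicNorm p (z - ∑ n ∈ F, (1 : ℚ) / n) ≤ 1) ∧
      (∀ p : ℕ, p.Prime → padicNorm p (z - ∑ n ∈ F, (1 : ℚ) / n) ≤ Y) ∧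
      (∀ p ∈ B, padicNorm p (z - ∑ n ∈ F, (1 : ℚ) / n) ≤ 1) ∧
      (∑ n ∈ F, (1 : ℝ) / n) ≤
        ∑ q ∈ ((Finset.range (Y + 1)).filter (fun q => q.Prime ∧ q ≠ 2)).filter
          (fun q => Y + 1 - d ≤ q), W q / ((q : ℝ) - 1) := by
  classical
  induction d with
  | zero =>
    refine ⟨∅, by simp, ?_, by simpa using hz, by simpa using hzB, ?_⟩
    · intro p hp _ hpY
      have hf : Fact p.Prime := ⟨hp⟩
      simp only [Finset.sum_empty, sub_zero]
      apply norm_le_one_of_lt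
      refine lt_of_le_of_lt (hz p hp) ?_
      have : Y < p := by omega
      exact_mod_cast this
    · simp only [Finset.sum_empty]
      apply Finset.sum_nonneg
      intro q hq
      simp only [Finset.mem_filter, Finset.mem_range] at hq
      have h2 : (2 : ℝ) ≤ q := by exact_mod_cast hq.1.2.1.two_le
      apply div_nonneg (hW0 q)
      linarith
  | succ d ih =>
    obtain ⟨F, hF1, hF2, hF3, hF4, hF5⟩ := ih
    set m := Y + 1 - (d + 1) with hm
    have hmono : ∑ q ∈ ((Finset.range (Y + 1)).filter (fun q => q.Prime ∧ q ≠ 2)).filter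
          (fun q => Y + 1 - d ≤ q), W q / ((q : ℝ) - 1)
        ≤ ∑ q ∈ ((Finset.range (Y + 1)).filter (fun q => q.Prime ∧ q ≠ 2)).filter
          (fun q => m ≤ q), W q / ((q : ℝ) - 1) := by
      apply Finset.sum_le_sum_of_subset_of_nonneg
      · intro q hq
        simp only [Finset.mem_filter] at hq ⊢
        exact ⟨hq.1, by omega⟩
      · intro q hq _
        simp only [Finset.mem_filter, Finset.mem_range] at hq
        have h2 : (2 : ℝ) ≤ q := by exact_mod_cast hq.1.2.1.two_le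
        apply div_nonneg (hW0 q)
        linarith
    by_cases hgood : m.Prime ∧ m ≠ 2 ∧ m ∉ B ∧ d ≤ Y
    · obtain ⟨hmp, hm2, hmB, hdY⟩ := hgood
      have hf : Fact m.Prime := ⟨hmp⟩
      have hmd : Y + 1 - d = m + 1 := by
        have := hmp.pos
        omega
      have hmY : m ≤ Y := by omega
      set z' := z - ∑ n ∈ F, (1 : ℚ) / n with hz'
      set J := Nat.log m Y with hJ
      have hJ1 : m ^ J ≤ Y := Nat.pow_log_le_self m (by omega)
      have hJ2 : Y < m ^ (J + 1) := Nat.lt_pow_succ_log_self hmp.one_lt Y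
      have hz'J : padicNorm m z' ≤ (m : ℚ) ^ J := by
        apply norm_le_of_lt
        refine lt_of_le_of_lt (hF3 m hmp) ?_
        exact_mod_cast hJ2
      obtain ⟨G, hG1, hG2, hG3⟩ := prime_step m hmp (hK m hmp hm2) J z' hz'J
      have hGk : ∀ n ∈ G, ∀ p : ℕ, p.Prime → p ∣ n → p ≤ m := by
        intro n hn p hp hpn
        obtain ⟨j, k, hj1, hjJ, hn1, hk0, hkM, hkp⟩ := hG1 n hn
        rw [hn1] at hpn
        rcases (Nat.Prime.dvd_mul hp).mp hpn with h | h
        · rw [(Nat.prime_dvd_prime_iff_eq hp hmp).mp (hp.dvd_of_dvd_pow h)]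
        · exact (hkp p hp h).2.le
      have hGY : ∀ n ∈ G, ∀ p : ℕ, p.Prime → p ≠ m → padicNorm p ((1 : ℚ) / n) ≤ Y := by
        intro n hn p hp hpm
        obtain ⟨j, k, hj1, hjJ, hn1, hk0, hkM, hkp⟩ := hG1 n hn
        have hfp : Fact p.Prime := ⟨hp⟩
        have e : (1 : ℚ) / n = (1 / ((m ^ j : ℕ) : ℚ)) * (1 / k) := by
          rw [hn1]
          push_cast
          rw [one_div_mul_one_div]
        rw [e, padicNorm.mul, norm_inv_nat (m ^ j), one_mul]
        · refine (norm_inv_nat_le k hk0).trans ?_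
          have : k ≤ Y := by
            rcases hkM with h | h
            · omega
            · have := Nat.le_self_pow (show g ≠ 0 by omega) k
              omega
          exact_mod_cast this
        · intro h
          exact hpm ((Nat.prime_dvd_prime_iff_eq hp hmp).mp (hp.dvd_of_dvd_pow h))
      have hdisj : Disjoint F G := by
        rw [Finset.disjoint_left]
        intro n hn hn'
        obtain ⟨q, J', hq, hq2, hqB, hYq, hqJ, hA⟩ := hF1 n hn
        obtain ⟨j, k, hj1, hjJ, hn1, _⟩ := hA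
        have hqn : q ∣ n := by
          rw [hn1]
          exact Dvd.dvd.mul_right (dvd_pow_self q (by omega)) k
        have := hGk n hn' q hq hqn
        omega
      have hsub : z - ∑ n ∈ F ∪ G, (1 : ℚ) / n = z' - ∑ n ∈ G, (1 : ℚ) / n := by
        rw [Finset.sum_union hdisj, hz', sub_sub]
      refine ⟨F ∪ G, ?_, ?_, ?_, ?_, ?_⟩
      · intro n hn
        rw [Finset.mem_union] at hn
        rcases hn with hn | hn
        · obtain ⟨q, J', hq, hq2, hqB, hYq, hqJ, hA⟩ := hF1 n hn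
          exact ⟨q, J', hq, hq2, hqB, by omega, hqJ, hA⟩
        · exact ⟨m, J, hmp, hm2, hmB, le_refl _, hJ1, hG1 n hn⟩
      · intro p hp hp3 hmp'
        have hfp : Fact p.Prime := ⟨hp⟩
        rw [hsub]
        rcases eq_or_lt_of_le hmp' with h | h
        · rw [← h]
          exact hG2
        · refine (padicNorm.sub).trans (max_le (hF2 p hp hp3 (by omega)) ?_)
          apply padicNorm.sum_le' _ (by norm_num)
          intro n hn
          rw [norm_inv_nat n (fun h' => absurd (hGk n hn p hp h') (by omega))]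
      · intro p hp
        have hfp : Fact p.Prime := ⟨hp⟩
        rw [hsub]
        by_cases hpm : p = m
        · subst hpm
          refine hG2.trans ?_
          have : 1 ≤ Y := by omega
          exact_mod_cast this
        · refine (padicNorm.sub).trans (max_le (hF3 p hp) ?_)
          apply padicNorm.sum_le' _ (by positivity)
          intro n hn
          exact hGY n hn p hp hpm
      · intro p hpB
        have hp := (hB p hpB).1
        have hfp : Fact p.Prime := ⟨hp⟩
        rw [hsub]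
        refine (padicNorm.sub).trans (max_le (hF4 p hpB) ?_)
        apply padicNorm.sum_le' _ (by norm_num)
        intro n hn
        rw [norm_inv_nat n]
        intro hpn
        obtain ⟨j, k, hj1, hjJ, hn1, hk0, hkM, hkp⟩ := hG1 n hn
        rw [hn1] at hpn
        rcases (Nat.Prime.dvd_mul hp).mp hpn with h | h
        · have := (Nat.prime_dvd_prime_iff_eq hp hmp).mp (hp.dvd_of_dvd_pow h)
          exact hmB (this ▸ hpB)
        · rcases (hkp p hp h).1 with h' | h'
          · exact (hB p hpB).2.1 h'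
          · have := (hB p hpB).2.2
            omega
      · rw [Finset.sum_union hdisj]
        have hsplit : ((Finset.range (Y + 1)).filter (fun q => q.Prime ∧ q ≠ 2)).filter
            (fun q => m ≤ q) = insert m (((Finset.range (Y + 1)).filter
              (fun q => q.Prime ∧ q ≠ 2)).filter (fun q => Y + 1 - d ≤ q)) := by
          ext q
          simp only [Finset.mem_insert, Finset.mem_filter, Finset.mem_range]
          constructor
          · rintro ⟨⟨h1, h2⟩, h3⟩
            rcases eq_or_lt_of_le h3 with h | h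
            · exact Or.inl h.symm
            · exact Or.inr ⟨⟨h1, h2⟩, by omega⟩
          · rintro (h | ⟨⟨h1, h2⟩, h3⟩)
            · subst h
              exact ⟨⟨by omega, hmp, hm2⟩, le_refl _⟩
            · exact ⟨⟨h1, h2⟩, by omega⟩
        rw [hsplit, Finset.sum_insert (by
          simp only [Finset.mem_filter, not_and, not_le]
          intro _
          omega)]
        have hgeo : ∑ j ∈ Finset.range J, (1 / (m : ℝ)) ^ (j + 1) ≤ 1 / ((m : ℝ) - 1) := by
          have h2 : (2 : ℝ) ≤ m := by exact_mod_cast hmp.two_le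
          have hx0 : (0 : ℝ) ≤ 1 / m := by positivity
          have hx1 : (1 : ℝ) / m < 1 := by
            rw [div_lt_one (by linarith)]
            linarith
          have h3 : ∑ j ∈ Finset.range J, (1 / (m : ℝ)) ^ j ≤ (1 - 1 / (m : ℝ))⁻¹ := by
            rw [← tsum_geometric_of_lt_one hx0 hx1]
            exact (summable_geometric_of_lt_one hx0 hx1).sum_le_tsum _
              (fun i _ => pow_nonneg hx0 i)
          have h4 : ∑ j ∈ Finset.range J, (1 / (m : ℝ)) ^ (j + 1)
              = (1 / (m : ℝ)) * ∑ j ∈ Finset.range J, (1 / (m : ℝ)) ^ j := by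
            rw [Finset.mul_sum]
            apply Finset.sum_congr rfl
            intro j _
            ring
          rw [h4]
          calc (1 / (m : ℝ)) * ∑ j ∈ Finset.range J, (1 / (m : ℝ)) ^ j
              ≤ (1 / (m : ℝ)) * (1 - 1 / (m : ℝ))⁻¹ := mul_le_mul_of_nonneg_left h3 hx0
            _ = 1 / ((m : ℝ) - 1) := by
              have h5 : (m : ℝ) ≠ 0 := by linarith
              have h6 : (m : ℝ) - 1 ≠ 0 := by linarith
              field_simp
        have h7 : W m * ∑ j ∈ Finset.range J, (1 / (m : ℝ)) ^ (j + 1) ≤ W m / ((m : ℝ) - 1) := by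
          rw [← mul_one_div (W m) ((m : ℝ) - 1)]
          exact mul_le_mul_of_nonneg_left hgeo (hW0 m)
        linarith
    · -- nothing to do
      refine ⟨F, ?_, ?_, hF3, hF4, hF5.trans hmono⟩
      · intro n hn
        obtain ⟨q, J', hq, hq2, hqB, hYq, hqJ, hA⟩ := hF1 n hn
        exact ⟨q, J', hq, hq2, hqB, by omega, hqJ, hA⟩
      · intro p hp hp3 hmp'
        rcases eq_or_lt_of_le hmp' with h | h
        · by_cases hdY : d ≤ Y
          · have hmB : m ∈ B := by
              by_contra hmB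
              exact hgood ⟨by rw [h]; exact hp, by omega, hmB, hdY⟩
            rw [← h]
            exact hF4 m hmB
          · exact hF2 p hp hp3 (by omega)
        · exact hF2 p hp hp3 (by omega)

end PartB3

namespace PartB4

open Finset Filter Topology PartB2 PartB3

lemma binary (s X : ℕ) (hX : X < 2 ^ (s + 1)) :
    ∃ I : Finset ℕ, I ⊆ Finset.range (s + 1) ∧ X = ∑ i ∈ I, 2 ^ i := by
  induction s generalizing X with
  | zero =>
    have : X = 0 ∨ X = 1 := by omega
    rcases this with h | h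
    · exact ⟨∅, by simp, by simp [h]⟩
    · exact ⟨{0}, by simp, by simp [h]⟩
  | succ s ih =>
    by_cases h : X < 2 ^ (s + 1)
    · obtain ⟨I, hI, hs⟩ := ih X h
      exact ⟨I, hI.trans (Finset.range_subset_range.mpr (by omega)), hs⟩
    · have h2 : X - 2 ^ (s + 1) < 2 ^ (s + 1) := by
        rw [pow_succ] at hX
        omega
      obtain ⟨I, hI, hs⟩ := ih (X - 2 ^ (s + 1)) h2
      have hnot : s + 1 ∉ I := by
        intro h3
        have := Finset.mem_range.mp (hI h3)
        omega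
      refine ⟨insert (s + 1) I, ?_, ?_⟩
      · intro i hi
        rw [Finset.mem_insert] at hi
        rw [Finset.mem_range]
        rcases hi with h3 | h3
        · omega
        · have := Finset.mem_range.mp (hI h3)
          omega
      · rw [Finset.sum_insert hnot, ← hs]
        omega

lemma den_not_dvd {p : ℕ} [hp : Fact p.Prime] (y : ℚ) (hy : padicNorm p y ≤ 1) : ¬ p ∣ y.den := by
  intro hd
  have hnum : ¬ (p : ℤ) ∣ y.num := by
    intro hn
    have h1 : p ∣ y.num.natAbs := Int.natCast_dvd.mp hn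
    have h2 := Nat.dvd_gcd h1 hd
    rw [y.reduced] at h2
    exact hp.out.one_lt.ne' (Nat.dvd_one.mp h2)
  have h1 : padicNorm p (y.num : ℚ) = 1 := (padicNorm.int_eq_one_iff _).mpr hnum
  have h2 : padicNorm p (y.den : ℚ) < 1 := (padicNorm.nat_lt_one_iff _).mpr hd
  have h3 : padicNorm p y = padicNorm p (y.num : ℚ) / padicNorm p (y.den : ℚ) := by
    conv_lhs => rw [← Rat.num_div_den y]
    rw [padicNorm.div]
  have hd0 : (y.den : ℚ) ≠ 0 := by exact_mod_cast y.den_nz
  have h4 : 0 < padicNorm p (y.den : ℚ) :=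
    lt_of_le_of_ne (padicNorm.nonneg _) (padicNorm.nonzero hd0).symm
  rw [h3, h1, div_le_iff₀ h4] at hy
  linarith

lemma isInt_of_norm (y : ℚ) (hy : ∀ p : ℕ, p.Prime → padicNorm p y ≤ 1) : y.den = 1 := by
  by_contra hne
  obtain ⟨p, hp, hpd⟩ := Nat.exists_prime_and_dvd hne
  have hf : Fact p.Prime := ⟨hp⟩
  exact den_not_dvd y (hy p hp) hpd

lemma norm_pow_self {p : ℕ} [hp : Fact p.Prime] (i : ℕ) :
    padicNorm p ((p : ℚ) ^ i) = ((p : ℚ) ^ i)⁻¹ := by
  induction i with
  | zero => simp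
  | succ i ih => rw [pow_succ, padicNorm.mul, ih, padicNorm.padicNorm_p_of_prime, mul_inv]

theorem represent (g : ℕ) (hg : 1 ≤ g) (B : Finset ℕ) (hB : ∀ p ∈ B, p.Prime ∧ p ≠ 2) :
    ∃ M : ℕ, 2 ≤ M ∧ ∀ Y : ℕ, M ≤ Y → ∀ z : ℚ, 1 / 2 ≤ z → z < 2 →
      (∀ p : ℕ, p.Prime → padicNorm p z ≤ Y) → (∀ p ∈ B, padicNorm p z ≤ 1) →
      ∃ G : Finset ℕ, ∑ n ∈ G, (1 : ℚ) / n = z ∧
        ∀ n ∈ G, 0 < n ∧ (∀ p ∈ B, ¬ p ∣ n) ∧ (n ≤ Y * M ∨ n ^ g ≤ Y ^ (g + 1)) := by
  classical
  set b := B.sup id with hb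
  obtain ⟨M, W, hW0, hWs, hK⟩ := PartB.ukl g hg b
  refine ⟨M + 2, by omega, ?_⟩
  intro Y hY z hz1 hz2 hzp hzB
  have hBb : ∀ p ∈ B, p.Prime ∧ p ≠ 2 ∧ p ≤ b := fun p hp =>
    ⟨(hB p hp).1, (hB p hp).2, Finset.le_sup (f := id) hp⟩
  obtain ⟨F, hF1, hF2, hF3, hF4, hF5⟩ := process hg hW0 hK B hBb Y (by omega) (by omega) z hzp hzB
    (Y + 1)
  set z' := z - ∑ n ∈ F, (1 : ℚ) / n with hz'
  have hFsum : (∑ n ∈ F, (1 : ℝ) / n) ≤ 1 / 2 := by
    refine hF5.trans (le_trans ?_ (hWs (Y + 1)))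
    apply Finset.sum_le_sum_of_subset_of_nonneg
    · exact Finset.filter_subset _ _
    · intro q hq _
      simp only [Finset.mem_filter, Finset.mem_range] at hq
      have h2 : (2 : ℝ) ≤ q := by exact_mod_cast hq.2.1.two_le
      apply div_nonneg (hW0 q)
      linarith
  have hFsumQ : (∑ n ∈ F, (1 : ℚ) / n) ≤ 1 / 2 := by
    have : ((∑ n ∈ F, (1 : ℚ) / n : ℚ) : ℝ) ≤ ((1 / 2 : ℚ) : ℝ) := by
      push_cast
      exact hFsum
    exact_mod_cast this
  have hFnn : 0 ≤ ∑ n ∈ F, (1 : ℚ) / n := Finset.sum_nonneg (fun n _ => by positivity)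
  have hz'0 : 0 ≤ z' := by rw [hz']; linarith
  have hz'2 : z' < 2 := by rw [hz']; linarith
  -- the power of two
  have hf2 : Fact (Nat.Prime 2) := ⟨Nat.prime_two⟩
  set s := Nat.log 2 Y with hs
  have hs1 : 2 ^ s ≤ Y := Nat.pow_log_le_self 2 (by omega)
  have hs2 : Y < 2 ^ (s + 1) := Nat.lt_pow_succ_log_self (by norm_num) Y
  have h2norm : padicNorm 2 z' ≤ ((2 : ℕ) : ℚ) ^ s := by
    apply norm_le_of_lt
    refine lt_of_le_of_lt (hF3 2 Nat.prime_two) ?_
    exact_mod_cast hs2
  have hden : (z' * (2 : ℚ) ^ s).den = 1 := by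
    apply isInt_of_norm
    intro p hp
    have hf : Fact p.Prime := ⟨hp⟩
    rw [padicNorm.mul]
    by_cases hp2 : p = 2
    · subst hp2
      have h5 := norm_pow_self (p := 2) s
      push_cast at h5 h2norm
      rw [h5, ← div_eq_mul_inv, div_le_one (by positivity)]
      exact h2norm
    · have hp3 : 3 ≤ p := by
        have := hp.two_le
        omega
      have h6 : padicNorm p z' ≤ 1 := hF2 p hp hp3 (by omega)
      have h7 : padicNorm p ((2 : ℚ) ^ s) ≤ 1 := by
        have := padicNorm.of_nat (p := p) (2 ^ s)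
        exact_mod_cast this
      calc padicNorm p z' * padicNorm p ((2 : ℚ) ^ s) ≤ 1 * 1 :=
            mul_le_mul h6 h7 (padicNorm.nonneg _) (by norm_num)
        _ = 1 := by norm_num
  obtain ⟨X, hX⟩ : ∃ X : ℕ, (X : ℚ) = z' * (2 : ℚ) ^ s := by
    have h0 : 0 ≤ z' * (2 : ℚ) ^ s := by positivity
    have h1 : ((z' * (2 : ℚ) ^ s).num : ℚ) = z' * (2 : ℚ) ^ s := by
      conv_rhs => rw [← Rat.num_div_den (z' * (2 : ℚ) ^ s)]
      rw [hden]
      simp
    have h2 : 0 ≤ (z' * (2 : ℚ) ^ s).num := Rat.num_nonneg.mpr h0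
    refine ⟨(z' * (2 : ℚ) ^ s).num.toNat, ?_⟩
    rw [← h1]
    have h3 : (((z' * (2 : ℚ) ^ s).num.toNat : ℤ)) = (z' * (2 : ℚ) ^ s).num := Int.toNat_of_nonneg h2
    exact_mod_cast h3
  have hXlt : X < 2 ^ (s + 1) := by
    have : (X : ℚ) < 2 ^ (s + 1) := by
      rw [hX, pow_succ, mul_comm]
      apply mul_lt_mul_of_pos_left hz'2 (by positivity)
    exact_mod_cast this
  obtain ⟨I, hI, hIs⟩ := binary s X hXlt
  have hinj : Set.InjOn (fun i => 2 ^ (s - i)) (I : Set ℕ) := by
    intro i hi j hj hij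
    have h1 : s - i = s - j := Nat.pow_right_injective (le_refl 2) hij
    have h2 := Finset.mem_range.mp (hI hi)
    have h3 := Finset.mem_range.mp (hI hj)
    omega
  set R := I.image (fun i => 2 ^ (s - i)) with hR
  have hRsum : ∑ n ∈ R, (1 : ℚ) / n = z' := by
    rw [hR, Finset.sum_image hinj]
    have h1 : ∀ i ∈ I, (1 : ℚ) / ((2 ^ (s - i) : ℕ) : ℚ) = 2 ^ i / 2 ^ s := by
      intro i hi
      have h2 := Finset.mem_range.mp (hI hi)
      push_cast
      rw [div_eq_div_iff (by positivity) (by positivity), one_mul, ← pow_add]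
      congr 1
      omega
    rw [Finset.sum_congr rfl h1, ← Finset.sum_div]
    have h3 : (∑ i ∈ I, (2 : ℚ) ^ i) = X := by
      rw [hIs]
      push_cast
      rfl
    rw [h3, hX, mul_div_assoc, div_self (by positivity), mul_one]
  have hdisj : Disjoint F R := by
    rw [Finset.disjoint_left]
    intro n hn hn'
    obtain ⟨q, J, hq, hq2, _, _, _, j, k, hj1, hjJ, hn1, _⟩ := hF1 n hn
    rw [hR, Finset.mem_image] at hn'
    obtain ⟨i, _, hn2⟩ := hn'
    have hqn : q ∣ n := by
      rw [hn1]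
      exact Dvd.dvd.mul_right (dvd_pow_self q (by omega)) k
    rw [← hn2] at hqn
    exact hq2 ((Nat.prime_dvd_prime_iff_eq hq Nat.prime_two).mp (hq.dvd_of_dvd_pow hqn))
  refine ⟨F ∪ R, ?_, ?_⟩
  · rw [Finset.sum_union hdisj, hRsum, hz']
    ring
  · intro n hn
    rw [Finset.mem_union] at hn
    rcases hn with hn | hn
    · obtain ⟨q, J, hq, hq2, hqB, hYq, hqJ, j, k, hj1, hjJ, hn1, hk0, hkM, hkp⟩ := hF1 n hn
      have hqj : q ^ j ≤ Y := (Nat.pow_le_pow_right hq.pos hjJ).trans hqJ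
      refine ⟨?_, ?_, ?_⟩
      · rw [hn1]
        exact Nat.mul_pos (pow_pos hq.pos _) hk0
      · intro p hpB hpn
        have hp := (hB p hpB).1
        rw [hn1] at hpn
        rcases (Nat.Prime.dvd_mul hp).mp hpn with h | h
        · have := (Nat.prime_dvd_prime_iff_eq hp hq).mp (hp.dvd_of_dvd_pow h)
          exact hqB (this ▸ hpB)
        · rcases (hkp p hp h).1 with h' | h'
          · exact (hB p hpB).2 h'
          · have := (hBb p hpB).2.2
            omega
      · rw [hn1]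
        rcases hkM with h | h
        · left
          exact Nat.mul_le_mul hqj (by omega)
        · right
          rw [mul_pow, pow_succ Y g]
          apply Nat.mul_le_mul (Nat.pow_le_pow_left hqj g)
          have h1 : q ≤ q ^ j := Nat.le_self_pow (by omega) q
          omega
    · rw [hR, Finset.mem_image] at hn
      obtain ⟨i, _, hn2⟩ := hn
      refine ⟨by rw [← hn2]; positivity, ?_, ?_⟩
      · intro p hpB hpn
        have hp := (hB p hpB).1
        rw [← hn2] at hpn
        exact (hB p hpB).2 ((Nat.prime_dvd_prime_iff_eq hp Nat.prime_two).mp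
          (hp.dvd_of_dvd_pow hpn))
      · left
        rw [← hn2]
        have h1 : 2 ^ (s - i) ≤ 2 ^ s := Nat.pow_le_pow_right (by norm_num) (by omega)
        have h2 : Y ≤ Y * (M + 2) := Nat.le_mul_of_pos_right _ (by omega)
        omega

end PartB4

namespace PartD

open Finset Filter Topology PartB2

/-- the special set `{p a : p ∈ B, 1 ≤ a ≤ k}` -/
def SS (k : ℕ) (B : Finset ℕ) : Finset ℕ := (B ×ˢ Finset.Icc 1 k).image (fun w => w.1 * w.2)

/-- `∑_{a ∈ I} k!/a` -/
def num (k : ℕ) (I : Finset ℕ) : ℕ := ∑ a ∈ I, k.factorial / a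

lemma num_cast (k : ℕ) (I : Finset ℕ) (hI : I ⊆ Finset.Icc 1 k) :
    (num k I : ℚ) = (k.factorial : ℚ) * ∑ a ∈ I, (1 : ℚ) / a := by
  unfold num
  push_cast
  rw [Finset.mul_sum]
  apply Finset.sum_congr rfl
  intro a ha
  have h1 := Finset.mem_Icc.mp (hI ha)
  have h2 : a ∣ k.factorial := Nat.dvd_factorial (by omega) h1.2
  rw [Nat.cast_div h2 (by have : (a : ℚ) ≠ 0 := by exact_mod_cast (show a ≠ 0 by omega)
                          exact this)]
  ring

lemma num_le (k : ℕ) (I : Finset ℕ) (hI : I ⊆ Finset.Icc 1 k) :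
    num k I ≤ k.factorial * k := by
  unfold num
  calc ∑ a ∈ I, k.factorial / a ≤ ∑ a ∈ I, k.factorial :=
        Finset.sum_le_sum (fun a _ => Nat.div_le_self _ _)
    _ = I.card * k.factorial := by rw [Finset.sum_const, smul_eq_mul]
    _ ≤ k * k.factorial := by
        apply Nat.mul_le_mul_right
        calc I.card ≤ (Finset.Icc 1 k).card := Finset.card_le_card hI
          _ = k := by simp
    _ = k.factorial * k := Nat.mul_comm _ _

lemma num_pos (k : ℕ) (I : Finset ℕ) (hI : I ⊆ Finset.Icc 1 k) (hne : I.Nonempty) :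
    0 < num k I := by
  unfold num
  apply Finset.sum_pos _ hne
  intro a ha
  have h1 := Finset.mem_Icc.mp (hI ha)
  exact Nat.div_pos (h1.2.trans (Nat.self_le_factorial k)) (by omega)

lemma k_lt {k p : ℕ} (h : k.factorial * k < p) : k < p := by
  have : 1 * k ≤ k.factorial * k := Nat.mul_le_mul_right _ (Nat.factorial_pos k)
  omega

lemma not_dvd_fact {k p : ℕ} (hp : p.Prime) (h : k.factorial * k < p) : ¬ p ∣ k.factorial := by
  intro h1
  rw [hp.dvd_factorial] at h1
  exact absurd (k_lt h) (by omega)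

lemma norm_special {k p : ℕ} [hp : Fact p.Prime] (h : k.factorial * k < p) (I : Finset ℕ)
    (hI : I ⊆ Finset.Icc 1 k) (hne : I.Nonempty) :
    1 < padicNorm p (∑ a ∈ I, (1 : ℚ) / ((p * a : ℕ) : ℚ)) := by
  have hk0 : (k.factorial : ℚ) ≠ 0 := by exact_mod_cast Nat.factorial_ne_zero k
  have hp0 : (p : ℚ) ≠ 0 := by exact_mod_cast hp.out.ne_zero
  have e : ∑ a ∈ I, (1 : ℚ) / ((p * a : ℕ) : ℚ) = (num k I : ℚ) / ((k.factorial : ℚ) * p) := by
    rw [num_cast k I hI, mul_div_mul_left _ _ hk0, Finset.sum_div]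
    apply Finset.sum_congr rfl
    intro a _
    push_cast
    rw [div_div, mul_comm]
  rw [e, padicNorm.div, padicNorm.mul, padicNorm.padicNorm_p_of_prime]
  have h1 : padicNorm p (num k I : ℚ) = 1 := by
    rw [padicNorm.nat_eq_one_iff]
    intro hd
    have := Nat.le_of_dvd (num_pos k I hI hne) hd
    have := num_le k I hI
    omega
  have h2 : padicNorm p (k.factorial : ℚ) = 1 := by
    rw [padicNorm.nat_eq_one_iff]
    exact not_dvd_fact hp.out h
  rw [h1, h2, one_mul, one_div, inv_inv]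
  exact_mod_cast hp.out.one_lt

lemma SS_dvd {k : ℕ} {B : Finset ℕ} (hB : ∀ p ∈ B, p.Prime ∧ k.factorial * k < p)
    {n p : ℕ} (hn : n ∈ SS k B) (hp : p ∈ B) (hpn : p ∣ n) :
    ∃ a ∈ Finset.Icc 1 k, n = p * a := by
  unfold SS at hn
  rw [Finset.mem_image] at hn
  obtain ⟨⟨p', a⟩, hpa, rfl⟩ := hn
  rw [Finset.mem_product] at hpa
  simp only at hpa hpn ⊢
  rcases (Nat.Prime.dvd_mul (hB p hp).1).mp hpn with h | h
  · have := (Nat.prime_dvd_prime_iff_eq (hB p hp).1 (hB p' hpa.1).1).mp h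
    exact ⟨a, hpa.2, by rw [this]⟩
  · have h1 := Finset.mem_Icc.mp hpa.2
    have h2 := Nat.le_of_dvd (by omega) h
    have h3 := k_lt (hB p hp).2
    omega

/-- Any zero sum subset avoiding the closing element is empty. -/
lemma minimal {k : ℕ} {B P : Finset ℕ} (hB : ∀ p ∈ B, p.Prime ∧ k.factorial * k < p)
    (hP : ∀ n ∈ P, 0 < n ∧ ∀ p ∈ B, ¬ p ∣ n) (A : Finset ℕ) (hA : A ⊆ SS k B ∪ P)
    (hsum : ∑ n ∈ A, (((if n ∈ SS k B then -1 else 1 : ℤ)) : ℚ) / n = 0) : A = ∅ := by
  classical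
  have hsplit : ∑ n ∈ A, (((if n ∈ SS k B then -1 else 1 : ℤ)) : ℚ) / n
      = (∑ n ∈ A.filter (fun n => n ∉ SS k B), (1 : ℚ) / n)
        - ∑ n ∈ A.filter (fun n => n ∈ SS k B), (1 : ℚ) / n := by
    rw [← Finset.sum_filter_add_sum_filter_not A (fun n => n ∈ SS k B)]
    have h1 : ∑ n ∈ A.filter (fun n => n ∈ SS k B),
        (((if n ∈ SS k B then -1 else 1 : ℤ)) : ℚ) / n
        = - ∑ n ∈ A.filter (fun n => n ∈ SS k B), (1 : ℚ) / n := by
      rw [← Finset.sum_neg_distrib]
      apply Finset.sum_congr rfl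
      intro n hn
      rw [if_pos (Finset.mem_filter.mp hn).2]
      push_cast
      rw [neg_div]
    have h2 : ∑ n ∈ A.filter (fun n => ¬ n ∈ SS k B),
        (((if n ∈ SS k B then -1 else 1 : ℤ)) : ℚ) / n
        = ∑ n ∈ A.filter (fun n => n ∉ SS k B), (1 : ℚ) / n := by
      apply Finset.sum_congr rfl
      intro n hn
      rw [if_neg (Finset.mem_filter.mp hn).2]
      push_cast
      rfl
    rw [h1, h2]
    ring
  rw [hsplit] at hsum
  have hPpart : ∀ n ∈ A.filter (fun n => n ∉ SS k B), n ∈ P := by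
    intro n hn
    rw [Finset.mem_filter] at hn
    rcases Finset.mem_union.mp (hA hn.1) with h | h
    · exact absurd h hn.2
    · exact h
  have hSempty : A.filter (fun n => n ∈ SS k B) = ∅ := by
    by_contra hne
    obtain ⟨n0, hn0⟩ := Finset.nonempty_iff_ne_empty.mpr hne
    rw [Finset.mem_filter] at hn0
    obtain ⟨hn0A, hn0S⟩ := hn0
    have hn0S' := hn0S
    unfold SS at hn0S'
    rw [Finset.mem_image] at hn0S'
    obtain ⟨⟨p, a0⟩, hpa, hn0e⟩ := hn0S'
    rw [Finset.mem_product] at hpa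
    simp only at hpa hn0e
    obtain ⟨hpB, ha0⟩ := hpa
    have hp := (hB p hpB).1
    have hf : Fact p.Prime := ⟨hp⟩
    set I := (Finset.Icc 1 k).filter (fun a => p * a ∈ A) with hI
    have hIne : I.Nonempty := ⟨a0, by rw [hI, Finset.mem_filter]; exact ⟨ha0, by rw [hn0e]; exact hn0A⟩⟩
    have hIsub : I ⊆ Finset.Icc 1 k := Finset.filter_subset _ _
    have hbig := norm_special (hB p hpB).2 I hIsub hIne
    have hSS : ∀ a ∈ Finset.Icc 1 k, p * a ∈ SS k B := by
      intro a ha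
      unfold SS
      rw [Finset.mem_image]
      exact ⟨(p, a), Finset.mem_product.mpr ⟨hpB, ha⟩, rfl⟩
    -- split the S part by divisibility by p
    have hsplit2 : ∑ n ∈ A.filter (fun n => n ∈ SS k B), (1 : ℚ) / n
        = (∑ a ∈ I, (1 : ℚ) / ((p * a : ℕ) : ℚ))
          + ∑ n ∈ (A.filter (fun n => n ∈ SS k B)).filter (fun n => ¬ p ∣ n), (1 : ℚ) / n := by
      rw [← Finset.sum_filter_add_sum_filter_not (A.filter (fun n => n ∈ SS k B)) (fun n => p ∣ n)]
      congr 1
      have himg : (A.filter (fun n => n ∈ SS k B)).filter (fun n => p ∣ n)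
          = I.image (fun a => p * a) := by
        ext n
        simp only [Finset.mem_filter, Finset.mem_image, hI]
        constructor
        · rintro ⟨⟨h1, h2⟩, h3⟩
          obtain ⟨a, ha, hna⟩ := SS_dvd hB h2 hpB h3
          exact ⟨a, ⟨ha, by rw [← hna]; exact h1⟩, hna.symm⟩
        · rintro ⟨a, ⟨ha, hpa⟩, rfl⟩
          exact ⟨⟨hpa, hSS a ha⟩, Dvd.intro _ rfl⟩
      rw [himg, Finset.sum_image]
      intro a _ b _ hab
      exact Nat.eq_of_mul_eq_mul_left hp.pos hab
    have heq : (∑ a ∈ I, (1 : ℚ) / ((p * a : ℕ) : ℚ))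
        = (∑ n ∈ A.filter (fun n => n ∉ SS k B), (1 : ℚ) / n)
          - ∑ n ∈ (A.filter (fun n => n ∈ SS k B)).filter (fun n => ¬ p ∣ n), (1 : ℚ) / n := by
      rw [hsplit2] at hsum
      linarith
    rw [heq] at hbig
    have hle : padicNorm p ((∑ n ∈ A.filter (fun n => n ∉ SS k B), (1 : ℚ) / n)
          - ∑ n ∈ (A.filter (fun n => n ∈ SS k B)).filter (fun n => ¬ p ∣ n), (1 : ℚ) / n) ≤ 1 := by
      refine (padicNorm.sub).trans (max_le ?_ ?_)
      · apply padicNorm.sum_le' _ (by norm_num)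
        intro n hn
        rw [norm_inv_nat n ((hP n (hPpart n hn)).2 p hpB)]
      · apply padicNorm.sum_le' _ (by norm_num)
        intro n hn
        rw [norm_inv_nat n (Finset.mem_filter.mp hn).2]
    linarith
  rw [hSempty, Finset.sum_empty, sub_zero] at hsum
  have hPempty : A.filter (fun n => n ∉ SS k B) = ∅ := by
    by_contra hne
    have hpos : 0 < ∑ n ∈ A.filter (fun n => n ∉ SS k B), (1 : ℚ) / n := by
      apply Finset.sum_pos _ (Finset.nonempty_iff_ne_empty.mpr hne)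
      intro n hn
      have := (hP n (hPpart n hn)).1
      positivity
    linarith
  rw [← Finset.filter_union_filter_not_eq (fun n => n ∈ SS k B) A, hSempty, hPempty]
  rfl

lemma SS_sum {k : ℕ} {B : Finset ℕ} (hB : ∀ p ∈ B, p.Prime ∧ k.factorial * k < p) :
    ∑ n ∈ SS k B, (1 : ℚ) / n = (∑ p ∈ B, (1 : ℚ) / p) * ∑ a ∈ Finset.Icc 1 k, (1 : ℚ) / a := by
  unfold SS
  rw [Finset.sum_image, Finset.sum_product, Finset.sum_mul_sum]
  · apply Finset.sum_congr rfl
    intro p _
    apply Finset.sum_congr rfl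
    intro a _
    push_cast
    rw [one_div_mul_one_div]
  · rintro ⟨p, a⟩ h1 ⟨p', a'⟩ h2 heq
    rw [Finset.mem_coe, Finset.mem_product] at h1 h2
    simp only at h1 h2 heq
    have hp := (hB p h1.1)
    have ha' := Finset.mem_Icc.mp h2.2
    have hd : p ∣ p' * a' := by rw [← heq]; exact Dvd.intro _ rfl
    have hpp : p = p' := by
      rcases (Nat.Prime.dvd_mul hp.1).mp hd with h | h
      · exact (Nat.prime_dvd_prime_iff_eq hp.1 (hB p' h2.1).1).mp h
      · exfalso
        have h3 := Nat.le_of_dvd (by omega) h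
        have h4 := k_lt hp.2
        omega
    subst hpp
    have := Nat.eq_of_mul_eq_mul_left hp.1.pos heq
    rw [this]

/-- the closing element -/
lemma closing {k : ℕ} {B : Finset ℕ} (hB : ∀ p ∈ B, p.Prime ∧ k.factorial * k < p)
    (hk : 1 ≤ k) (hBne : B.Nonempty) :
    ∃ D : ℕ, 0 < D ∧ D ∉ SS k B ∧ (∀ p ∈ B, p ∣ D) ∧
      ∀ p ∈ B, padicNorm p ((∑ n ∈ SS k B, (1 : ℚ) / n) - 1 / D) ≤ 1 := by
  classical
  set m := ∏ p ∈ B, p with hm
  have hmpos : 0 < m := Finset.prod_pos (fun p hp => (hB p hp).1.pos)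
  set R := ∑ p ∈ B, ∏ r ∈ B.erase p, r with hR
  set X := num k (Finset.Icc 1 k) * R with hX
  have hRdvd : ∀ p ∈ B, ¬ p ∣ R := by
    intro p hp
    exact PartA2.not_dvd_numer B (fun u hu => (hB u hu).1) p hp
  have hXdvd : ∀ p ∈ B, ¬ p ∣ X := by
    intro p hp hd
    rcases (Nat.Prime.dvd_mul (hB p hp).1).mp hd with h | h
    · have h1 := Nat.le_of_dvd (num_pos k _ (Finset.Subset.refl _)
        ⟨1, by rw [Finset.mem_Icc]; omega⟩) h
      have h2 := num_le k _ (Finset.Subset.refl (Finset.Icc 1 k))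
      have := (hB p hp).2
      omega
    · exact hRdvd p hp h
  have hcop : Nat.Coprime X m := by
    rw [hm]
    apply Nat.Coprime.prod_right
    intro p hp
    exact ((Nat.Prime.coprime_iff_not_dvd (hB p hp).1).mpr (hXdvd p hp)).symm
  have hsumX : ∑ n ∈ SS k B, (1 : ℚ) / n = (X : ℚ) / (k.factorial * m) := by
    have hk0 : (k.factorial : ℚ) ≠ 0 := by exact_mod_cast Nat.factorial_ne_zero k
    have hm0 : (m : ℚ) ≠ 0 := by exact_mod_cast hmpos.ne'
    rw [SS_sum hB, hX, Nat.cast_mul, num_cast k _ (Finset.Subset.refl _)]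
    have hRm : (R : ℚ) = m * ∑ p ∈ B, (1 : ℚ) / p := by
      rw [hR, hm, Finset.mul_sum]
      push_cast
      apply Finset.sum_congr rfl
      intro p hp
      have hp0 : (p : ℚ) ≠ 0 := by exact_mod_cast (hB p hp).1.ne_zero
      rw [← Finset.mul_prod_erase B (fun r => (r : ℚ)) hp]
      field_simp
    rw [hRm]
    field_simp
  -- an inverse of X modulo m
  obtain ⟨x, hx⟩ : ∃ x : ℕ, X * x ≡ 1 [MOD m] := by
    obtain ⟨u, v, huv⟩ := (Nat.isCoprime_iff_coprime.mpr hcop)
    refine ⟨(u % m).toNat, ?_⟩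
    have hm0 : (m : ℤ) ≠ 0 := by exact_mod_cast hmpos.ne'
    have h1 : (((u % m).toNat : ℕ) : ℤ) = u % m := Int.toNat_of_nonneg (Int.emod_nonneg u hm0)
    rw [← Int.natCast_modEq_iff]
    push_cast
    rw [h1]
    have h2 : (X : ℤ) * (u % m) ≡ X * u [ZMOD m] := (Int.ModEq.refl _).mul (Int.mod_modEq u m)
    refine h2.trans ?_
    have h3 : (X : ℤ) * u = 1 - v * m := by linarith
    rw [h3]
    exact (Int.modEq_iff_dvd.mpr ⟨v, by ring⟩)
  set D' := k.factorial * x + m * (k + 1) with hD'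
  have hcong : X * D' ≡ k.factorial [MOD m] := by
    have h1 : X * D' = k.factorial * (X * x) + m * (X * (k + 1)) := by rw [hD']; ring
    rw [h1]
    have h2 : k.factorial * (X * x) ≡ k.factorial * 1 [MOD m] := (Nat.ModEq.refl _).mul hx
    have h3 : m * (X * (k + 1)) ≡ 0 [MOD m] := (Nat.modEq_zero_iff_dvd).mpr (Dvd.intro _ rfl)
    simpa using h2.add h3
  have hD'pos : k + 1 ≤ D' := by
    have : 1 * (k + 1) ≤ m * (k + 1) := Nat.mul_le_mul_right _ hmpos
    omega
  have hple : ∀ p ∈ B, p ≤ m := fun p hp => Nat.le_of_dvd hmpos (Finset.dvd_prod_of_mem _ hp)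
  refine ⟨m * D', Nat.mul_pos hmpos (by omega), ?_, ?_, ?_⟩
  · intro hmem
    obtain ⟨p, hp⟩ := hBne
    obtain ⟨a, ha, hDa⟩ := SS_dvd hB hmem hp
      (Dvd.dvd.mul_right (Finset.dvd_prod_of_mem (fun p => p) hp) D')
    have h1 := Finset.mem_Icc.mp ha
    have h2 : p * (k + 1) ≤ m * D' := Nat.mul_le_mul (hple p hp) hD'pos
    rw [hDa] at h2
    have h3 := Nat.le_of_mul_le_mul_left h2 (hB p hp).1.pos
    omega
  · intro p hp
    exact Dvd.dvd.mul_right (Finset.dvd_prod_of_mem (fun p => p) hp) D'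
  · intro p hp
    have hf : Fact p.Prime := ⟨(hB p hp).1⟩
    have hpm : p ∣ m := Finset.dvd_prod_of_mem (fun p => p) hp
    have hk0 : (k.factorial : ℚ) ≠ 0 := by exact_mod_cast Nat.factorial_ne_zero k
    have hm0 : (m : ℚ) ≠ 0 := by exact_mod_cast hmpos.ne'
    have hD0 : (D' : ℚ) ≠ 0 := by exact_mod_cast (show D' ≠ 0 by omega)
    have hcongZ : (m : ℤ) ∣ (X * D' : ℤ) - k.factorial := by
      have := (Nat.modEq_iff_dvd).mp hcong
      have h2 := (dvd_neg).mpr this
      push_cast at h2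
      rwa [neg_sub] at h2
    obtain ⟨y, hy⟩ := hcongZ
    have hyQ : (X : ℚ) * D' - k.factorial = m * y := by exact_mod_cast hy
    have e : (∑ n ∈ SS k B, (1 : ℚ) / n) - 1 / ((m * D' : ℕ) : ℚ)
        = (y : ℚ) / ((k.factorial : ℚ) * D') := by
      rw [hsumX]
      push_cast
      have : (X : ℚ) / (k.factorial * m) - 1 / (m * D')
          = ((X : ℚ) * D' - k.factorial) / (k.factorial * m * D') := by
        field_simp
      rw [this, hyQ]
      field_simp
    rw [e, padicNorm.div, padicNorm.mul]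
    have h1 : padicNorm p (k.factorial : ℚ) = 1 :=
      (padicNorm.nat_eq_one_iff _).mpr (not_dvd_fact (hB p hp).1 (hB p hp).2)
    have h2 : padicNorm p (D' : ℚ) = 1 := by
      rw [padicNorm.nat_eq_one_iff]
      intro hpD
      have h3 : X * D' ≡ k.factorial [MOD p] := hcong.of_dvd hpm
      have h4 : X * D' ≡ 0 [MOD p] := (Nat.modEq_zero_iff_dvd).mpr (Dvd.dvd.mul_left hpD X)
      have h5 : k.factorial ≡ 0 [MOD p] := h3.symm.trans h4
      exact not_dvd_fact (hB p hp).1 (hB p hp).2 ((Nat.modEq_zero_iff_dvd).mp h5)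
    rw [h1, h2, one_mul, div_one]
    exact padicNorm.of_int y

end PartD

namespace PartD2

open Finset Filter Topology PartB2 PartD

/-- finite set of large primes with reciprocal sum in `[e, 2e]`. -/
lemma primes_window (e : ℝ) (he : 0 < e) (L : ℕ) :
    ∃ B : Finset ℕ, (∀ p ∈ B, p.Prime ∧ L < p) ∧ e ≤ ∑ p ∈ B, (1 : ℝ) / p ∧
      ∑ p ∈ B, (1 : ℝ) / p ≤ 2 * e := by
  classical
  obtain ⟨L', hL'⟩ := exists_nat_gt (1 / e)
  set L2 := max L (L' + 1) with hL2
  set f : ℕ → ℝ := fun n => ∑ p ∈ (Finset.range n).filter (fun p => p.Prime ∧ L2 < p), (1 : ℝ) / p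
    with hf
  have hns := not_summable_one_div_on_primes
  have htend : Tendsto f atTop atTop := by
    have h1 : ∀ n, 0 ≤ (Set.indicator {p : ℕ | p.Prime} (fun n : ℕ => (1 : ℝ) / n)) n := by
      intro n
      apply Set.indicator_nonneg
      intro x _
      positivity
    have h2 := (not_summable_iff_tendsto_nat_atTop_of_nonneg h1).mp hns
    have h3 : ∀ n, (∑ i ∈ Finset.range n, (Set.indicator {p : ℕ | p.Prime}
        (fun n : ℕ => (1 : ℝ) / n)) i) - (L2 + 1) ≤ f n := by
      intro n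
      have h4 : ∑ i ∈ Finset.range n, (Set.indicator {p : ℕ | p.Prime}
        (fun n : ℕ => (1 : ℝ) / n)) i = ∑ p ∈ (Finset.range n).filter (fun p => p.Prime),
          (1 : ℝ) / p := by
        rw [Finset.sum_filter]
        apply Finset.sum_congr rfl
        intro i _
        simp [Set.indicator_apply]
      rw [h4]
      have h5 : ∑ p ∈ (Finset.range n).filter (fun p => p.Prime), (1 : ℝ) / p
          = f n + ∑ p ∈ ((Finset.range n).filter (fun p => p.Prime)).filter (fun p => ¬ L2 < p),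
            (1 : ℝ) / p := by
        rw [hf, ← Finset.sum_filter_add_sum_filter_not _ (fun p => L2 < p), Finset.filter_filter]
      have h6 : ∑ p ∈ ((Finset.range n).filter (fun p => p.Prime)).filter (fun p => ¬ L2 < p),
            (1 : ℝ) / p ≤ L2 + 1 := by
        calc ∑ p ∈ ((Finset.range n).filter (fun p => p.Prime)).filter (fun p => ¬ L2 < p),
            (1 : ℝ) / p ≤ ∑ p ∈ Finset.range (L2 + 1), (1 : ℝ) := by
              refine (Finset.sum_le_sum (g := fun _ => (1 : ℝ)) ?_).trans ?_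
              · intro p hp
                simp only [Finset.mem_filter] at hp
                have : (1 : ℝ) ≤ p := by exact_mod_cast hp.1.2.one_lt.le
                rw [div_le_one (by linarith)]
                exact this
              · apply Finset.sum_le_sum_of_subset_of_nonneg
                · intro p hp
                  simp only [Finset.mem_filter] at hp
                  rw [Finset.mem_range]
                  omega
                · intro _ _ _
                  norm_num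
          _ = L2 + 1 := by simp
      linarith
    have h7 : Tendsto (fun n => (∑ i ∈ Finset.range n, (Set.indicator {p : ℕ | p.Prime}
        (fun n : ℕ => (1 : ℝ) / n)) i) - ((L2 : ℝ) + 1)) atTop atTop := by
      simpa [sub_eq_add_neg] using tendsto_atTop_add_const_right atTop (-((L2 : ℝ) + 1)) h2
    exact tendsto_atTop_mono h3 h7
  have hex : ∃ n, e ≤ f n := (htend.eventually_ge_atTop e).exists
  set n := Nat.find hex with hn
  have hn1 : e ≤ f n := Nat.find_spec hex
  have hn0 : n ≠ 0 := by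
    intro h0
    rw [h0] at hn1
    simp only [hf, Finset.range_zero, Finset.filter_empty, Finset.sum_empty] at hn1
    linarith
  obtain ⟨n', hn'⟩ := Nat.exists_eq_succ_of_ne_zero hn0
  have hlt : f n' < e := by
    have := Nat.find_min hex (m := n') (by omega)
    push Not at this
    exact this
  refine ⟨(Finset.range n).filter (fun p => p.Prime ∧ L2 < p), ?_, hn1, ?_⟩
  · intro p hp
    simp only [Finset.mem_filter] at hp
    exact ⟨hp.2.1, lt_of_le_of_lt (le_max_left _ _) hp.2.2⟩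
  · change f n ≤ 2 * e
    have hstep : f n ≤ f n' + e := by
      rw [hn']
      simp only [hf, Nat.succ_eq_add_one]
      rw [Finset.range_add_one, Finset.filter_insert]
      split_ifs with h
      · rw [Finset.sum_insert (by simp)]
        have h8 : (1 : ℝ) / n' ≤ e := by
          have h9 : (L' : ℝ) ≤ n' := by
            have : L' + 1 ≤ L2 := le_max_right _ _
            have h10 := h.2
            exact_mod_cast (show L' ≤ n' by omega)
          have h11 : 1 / e < n' := lt_of_lt_of_le hL' h9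
          have h12 : (0 : ℝ) < n' := lt_trans (by positivity) h11
          rw [div_le_iff₀ h12]
          rw [div_lt_iff₀ he] at h11
          linarith
        linarith
      · linarith
    linarith

lemma sum_Icc_eq (k : ℕ) : ∑ a ∈ Finset.Icc 1 k, (1 : ℝ) / a
    = ∑ i ∈ Finset.range k, (1 : ℝ) / ((i : ℝ) + 1) := by
  induction k with
  | zero => simp
  | succ k ih =>
    rw [Finset.sum_Icc_succ_top (by omega), ih, Finset.sum_range_succ]
    push_cast
    rfl

/-- choice of the parameters `k` and `B` -/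
lemma choose_params (e : ℝ) (he : 0 < e) (T : ℝ) :
    ∃ (k : ℕ) (B : Finset ℕ), 1 ≤ k ∧ B.Nonempty ∧
      (∀ p ∈ B, p.Prime ∧ k.factorial * k < p) ∧ (∀ p ∈ B, p ≠ 2) ∧
      ∑ p ∈ B, (1 : ℝ) / p ≤ e ∧ T ≤ ((∑ n ∈ SS k B, (1 : ℚ) / n : ℚ) : ℝ) := by
  classical
  have hdiv : Tendsto (fun n : ℕ => ∑ i ∈ Finset.range n, (1 : ℝ) / ((i : ℝ) + 1)) atTop atTop :=
    Real.tendsto_sum_range_one_div_nat_succ_atTop
  obtain ⟨k, hk1, hk⟩ := ((hdiv.eventually_ge_atTop ((|T| + 1) / (e / 2))).and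
    (eventually_ge_atTop 1)).exists
  obtain ⟨B, hB1, hB2, hB3⟩ := primes_window (e / 2) (by positivity) (k.factorial * k + 2)
  have hBp : ∀ p ∈ B, p.Prime ∧ k.factorial * k < p := fun p hp =>
    ⟨(hB1 p hp).1, by have := (hB1 p hp).2; omega⟩
  have hne : B.Nonempty := by
    by_contra h
    rw [Finset.not_nonempty_iff_eq_empty] at h
    rw [h, Finset.sum_empty] at hB2
    linarith
  refine ⟨k, B, hk, hne, hBp, ?_, by linarith, ?_⟩
  · intro p hp h2
    have := (hB1 p hp).2
    omega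
  · rw [SS_sum hBp]
    push_cast
    have h1 := sum_Icc_eq k
    rw [h1]
    have h2 : 0 < e / 2 := by positivity
    have h3 : (|T| + 1) ≤ (∑ i ∈ Finset.range k, (1 : ℝ) / ((i : ℝ) + 1)) * (e / 2) := by
      rw [← div_le_iff₀ h2]
      exact hk1
    have h4 : 0 ≤ ∑ i ∈ Finset.range k, (1 : ℝ) / ((i : ℝ) + 1) :=
      Finset.sum_nonneg (fun i _ => by positivity)
    have h5 : T ≤ |T| := le_abs_self T
    nlinarith

end PartD2

namespace PartC

open Finset Filter Topology

/-- eligible integers: free of the primes in `B`, all prime powers at most `Y` -/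
def Elig (B : Finset ℕ) (Y n : ℕ) : Prop :=
  (∀ p ∈ B, ¬ p ∣ n) ∧ ∀ p j : ℕ, p.Prime → p ^ j ∣ n → p ^ j ≤ Y

/-- the threshold `⌊N^(1-δ)⌋` -/
noncomputable def YY (δ : ℝ) (N : ℕ) : ℕ := ⌊(N : ℝ) ^ (1 - δ)⌋₊

lemma YY_tendsto (δ : ℝ) (h1 : δ < 1) : Tendsto (YY δ) atTop atTop := by
  have t1 : Tendsto (fun n : ℕ => (n : ℝ)) atTop atTop := tendsto_natCast_atTop_atTop
  have t2 : Tendsto (fun x : ℝ => x ^ (1 - δ)) atTop atTop := tendsto_rpow_atTop (by linarith)
  exact tendsto_nat_floor_atTop.comp (t2.comp t1)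

open Classical in
/-- the count of non-eligible integers up to `x`, general bound -/
lemma count_bound (B : Finset ℕ) (hB : ∀ p ∈ B, p.Prime) (Y x : ℕ) (hY : 2 ≤ Y) :
    (((Finset.Icc 1 x).filter (fun n => ¬ Elig B Y n)).card : ℝ)
      ≤ (∑ p ∈ B, (1 : ℝ) / p) * x + (∑ m ∈ Finset.Icc 1 (x / Y), (Nat.primeCounting (x / m) : ℝ))
        + x * (2 / (((Nat.sqrt (Nat.sqrt Y) : ℕ) : ℝ) + 1)) := by
  set D := Nat.sqrt (Nat.sqrt Y) with hD
  set S1 := B.biUnion (fun p => (Finset.Icc 1 (x / p)).image (fun m => p * m)) with hS1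
  set S2 := (Finset.Icc 1 (x / Y)).biUnion (fun m => (Nat.primesLE (x / m)).image (fun p => m * p))
    with hS2
  set S3 := (Finset.Ioo D (x + 1)).biUnion
    (fun d => (Finset.Icc 1 (x / d ^ 2)).image (fun m => d ^ 2 * m)) with hS3
  have hsub : (Finset.Icc 1 x).filter (fun n => ¬ Elig B Y n) ⊆ S1 ∪ (S2 ∪ S3) := by
    intro n hn
    rw [Finset.mem_filter, Finset.mem_Icc] at hn
    obtain ⟨⟨hn1, hnx⟩, hne⟩ := hn
    unfold Elig at hne
    rw [not_and_or] at hne
    rcases hne with hne | hne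
    · push Not at hne
      obtain ⟨p, hpB, m, hm⟩ := hne
      apply Finset.mem_union_left
      rw [hS1, Finset.mem_biUnion]
      refine ⟨p, hpB, ?_⟩
      rw [Finset.mem_image]
      refine ⟨m, ?_, hm.symm⟩
      rw [Finset.mem_Icc]
      have hp := (hB p hpB).pos
      constructor
      · rcases Nat.eq_zero_or_pos m with h | h
        · subst h; omega
        · exact h
      · rw [Nat.le_div_iff_mul_le hp, mul_comm, ← hm]
        exact hnx
    · push Not at hne
      obtain ⟨p, j, hp, hpn, hpY⟩ := hne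
      apply Finset.mem_union_right
      by_cases hpbig : Y < p
      · apply Finset.mem_union_left
        have hj : j ≠ 0 := by
          rintro rfl
          simp at hpY
          omega
        have hpn' : p ∣ n := (dvd_pow_self p hj).trans hpn
        obtain ⟨m, hm⟩ := hpn'
        rw [hS2, Finset.mem_biUnion]
        have hm0 : 0 < m := by
          rcases Nat.eq_zero_or_pos m with h | h
          · subst h; omega
          · exact h
        refine ⟨m, ?_, ?_⟩
        · rw [Finset.mem_Icc]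
          refine ⟨hm0, ?_⟩
          rw [Nat.le_div_iff_mul_le (by omega)]
          calc m * Y ≤ m * p := Nat.mul_le_mul_left _ hpbig.le
            _ = n := by rw [hm]; ring
            _ ≤ x := hnx
        · rw [Finset.mem_image]
          refine ⟨p, ?_, by rw [hm]; ring⟩
          rw [Nat.mem_primesLE]
          refine ⟨?_, hp⟩
          rw [Nat.le_div_iff_mul_le hm0, ← hm]
          exact hnx
      · apply Finset.mem_union_right
        push Not at hpbig
        have hj2 : 2 ≤ j := by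
          by_contra hj
          have : j = 0 ∨ j = 1 := by omega
          rcases this with rfl | rfl
          · simp at hpY; omega
          · simp at hpY; omega
        set d := p ^ (j / 2) with hd
        have hd4 : Y < d ^ 4 := by
          calc Y < p ^ j := hpY
            _ ≤ p ^ ((j / 2) * 4) := Nat.pow_le_pow_right hp.pos (by omega)
            _ = d ^ 4 := by rw [hd, ← pow_mul]
        have hDd : D < d := by
          by_contra h
          push Not at h
          rw [hD, Nat.le_sqrt, Nat.le_sqrt] at h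
          have : d ^ 4 = d * d * (d * d) := by ring
          omega
        have hdn : d ^ 2 ∣ n := by
          refine dvd_trans ?_ hpn
          rw [hd, ← pow_mul]
          exact pow_dvd_pow p (by omega)
        obtain ⟨m, hm⟩ := hdn
        have hm0 : 0 < m := by
          rcases Nat.eq_zero_or_pos m with h | h
          · subst h; omega
          · exact h
        have hdpos : 0 < d := by omega
        rw [hS3, Finset.mem_biUnion]
        refine ⟨d, ?_, ?_⟩
        · rw [Finset.mem_Ioo]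
          refine ⟨hDd, ?_⟩
          have h1 : d ≤ d ^ 2 := Nat.le_self_pow (by norm_num) d
          have h2 : d ^ 2 * 1 ≤ d ^ 2 * m := Nat.mul_le_mul_left _ hm0
          omega
        · rw [Finset.mem_image]
          refine ⟨m, ?_, hm.symm⟩
          rw [Finset.mem_Icc]
          refine ⟨hm0, ?_⟩
          rw [Nat.le_div_iff_mul_le (by positivity), mul_comm, ← hm]
          exact hnx
  have hcard := Finset.card_le_card hsub
  have hc1 : (S1.card : ℝ) ≤ (∑ p ∈ B, (1 : ℝ) / p) * x := by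
    have h1 : S1.card ≤ ∑ p ∈ B, x / p := by
      refine Finset.card_biUnion_le.trans (Finset.sum_le_sum ?_)
      intro p _
      refine Finset.card_image_le.trans ?_
      simp
    calc (S1.card : ℝ) ≤ ((∑ p ∈ B, x / p : ℕ) : ℝ) := by exact_mod_cast h1
      _ = ∑ p ∈ B, ((x / p : ℕ) : ℝ) := by push_cast; rfl
      _ ≤ ∑ p ∈ B, (x : ℝ) / p := Finset.sum_le_sum (fun p _ => Nat.cast_div_le)
      _ = (∑ p ∈ B, (1 : ℝ) / p) * x := by
        rw [Finset.sum_mul]
        apply Finset.sum_congr rfl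
        intro p _
        ring
  have hc2 : (S2.card : ℝ) ≤ ∑ m ∈ Finset.Icc 1 (x / Y), (Nat.primeCounting (x / m) : ℝ) := by
    have h1 : S2.card ≤ ∑ m ∈ Finset.Icc 1 (x / Y), Nat.primeCounting (x / m) := by
      refine Finset.card_biUnion_le.trans (Finset.sum_le_sum ?_)
      intro m _
      refine Finset.card_image_le.trans ?_
      rw [Nat.primesLE_card_eq_primeCounting]
    exact_mod_cast h1
  have hc3 : (S3.card : ℝ) ≤ x * (2 / ((D : ℝ) + 1)) := by
    have h1 : S3.card ≤ ∑ d ∈ Finset.Ioo D (x + 1), x / d ^ 2 := by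
      refine Finset.card_biUnion_le.trans (Finset.sum_le_sum ?_)
      intro d _
      refine Finset.card_image_le.trans ?_
      simp
    calc (S3.card : ℝ) ≤ ((∑ d ∈ Finset.Ioo D (x + 1), x / d ^ 2 : ℕ) : ℝ) := by exact_mod_cast h1
      _ = ∑ d ∈ Finset.Ioo D (x + 1), ((x / d ^ 2 : ℕ) : ℝ) := by push_cast; rfl
      _ ≤ ∑ d ∈ Finset.Ioo D (x + 1), (x : ℝ) * (((d : ℝ) ^ 2)⁻¹) := by
        apply Finset.sum_le_sum
        intro d _
        have := @Nat.cast_div_le ℝ _ _ _ x (d ^ 2)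
        push_cast at this
        rwa [div_eq_mul_inv] at this
      _ = x * ∑ d ∈ Finset.Ioo D (x + 1), (((d : ℝ) ^ 2)⁻¹) := by rw [Finset.mul_sum]
      _ ≤ x * (2 / ((D : ℝ) + 1)) := by
        apply mul_le_mul_of_nonneg_left _ (Nat.cast_nonneg x)
        exact sum_Ioo_inv_sq_le D (x + 1)
  have hfin : (((Finset.Icc 1 x).filter (fun n => ¬ Elig B Y n)).card : ℝ)
      ≤ S1.card + (S2.card + S3.card) := by
    have h1 := Finset.card_union_le S1 (S2 ∪ S3)
    have h2 := Finset.card_union_le S2 S3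
    have : ((Finset.Icc 1 x).filter (fun n => ¬ Elig B Y n)).card
      ≤ S1.card + (S2.card + S3.card) := by omega
    exact_mod_cast this
  linarith

open Classical in
/-- for large `N`, few non-eligible integers below any `x` comparable to `N` -/
lemma count_small (B : Finset ℕ) (hB : ∀ p ∈ B, p.Prime) (δ : ℝ) (hδ0 : 0 < δ) (hδ1 : δ ≤ 1 / 4) :
    ∀ᶠ N : ℕ in atTop, ∀ x : ℕ, x ≤ N →
      (((Finset.Icc 1 x).filter (fun n => ¬ Elig B (YY δ N) n)).card : ℝ)
        ≤ ((∑ p ∈ B, (1 : ℝ) / p) + 5 * δ) * x := by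
  have hlog4 : Real.log 4 < 2 := by
    rw [Real.log_lt_iff_lt_exp (by norm_num)]
    have h1 : (2.7182818283 : ℝ) < Real.exp 1 := Real.exp_one_gt_d9
    have h2 : Real.exp 2 = Real.exp 1 * Real.exp 1 := by
      rw [← Real.exp_add]
      norm_num
    rw [h2]
    nlinarith
  have hpi := Chebyshev.eventually_primeCounting_le (ε := 2 - Real.log 4) (by linarith)
  obtain ⟨t0, ht0⟩ := Filter.eventually_atTop.mp hpi
  have hY := YY_tendsto δ (by linarith)
  have hD : Tendsto (fun N => Nat.sqrt (Nat.sqrt (YY δ N))) atTop atTop := by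
    have h1 : Tendsto Nat.sqrt atTop atTop := by
      apply Filter.tendsto_atTop_atTop.mpr
      intro b
      refine ⟨b * b, fun a ha => ?_⟩
      rw [Nat.le_sqrt]
      exact ha
    exact h1.comp (h1.comp hY)
  obtain ⟨Cd, hCd⟩ := exists_nat_gt (2 / δ)
  obtain ⟨Ct, hCt⟩ := exists_nat_gt t0
  have hlogN : Tendsto (fun N : ℕ => Real.log N) atTop atTop :=
    Real.tendsto_log_atTop.comp tendsto_natCast_atTop_atTop
  filter_upwards [hD.eventually_ge_atTop Cd, hY.eventually_ge_atTop (Ct + 3),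
    hlogN.eventually_ge_atTop (5 / δ), eventually_ge_atTop 1] with N hN1 hN2 hN3 hN4 x hx
  set Y := YY δ N with hYdef
  have hNr : (1 : ℝ) ≤ N := by exact_mod_cast hN4
  have hYr : (3 : ℝ) ≤ Y := by
    have : 3 ≤ Y := by omega
    exact_mod_cast this
  have hlogY : 0 < Real.log Y := Real.log_pos (by linarith)
  have hYlow : (N : ℝ) ^ (1 - δ) / 2 ≤ Y := by
    have h1 : (N : ℝ) ^ (1 - δ) < (Y : ℝ) + 1 := Nat.lt_floor_add_one _
    linarith
  have hlogYlow : (1 - δ) * Real.log N - Real.log 2 ≤ Real.log Y := by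
    have h1 : 0 < (N : ℝ) ^ (1 - δ) := Real.rpow_pos_of_pos (by linarith) _
    have h2 := Real.log_le_log (by positivity) hYlow
    rw [Real.log_div (by positivity) (by norm_num), Real.log_rpow (by linarith)] at h2
    exact h2
  refine (count_bound B hB Y x (by omega)).trans ?_
  have hmid : (∑ m ∈ Finset.Icc 1 (x / Y), (Nat.primeCounting (x / m) : ℝ)) ≤ 4 * δ * x := by
    have hterm : ∀ m ∈ Finset.Icc 1 (x / Y), (Nat.primeCounting (x / m) : ℝ)
        ≤ (2 * x / Real.log Y) * (m : ℝ)⁻¹ := by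
      intro m hm
      rw [Finset.mem_Icc] at hm
      have hm0 : (0 : ℝ) < m := by exact_mod_cast hm.1
      have h1 : m * Y ≤ x := (Nat.le_div_iff_mul_le (by omega)).mp hm.2
      have h2 : (Y : ℝ) ≤ (x : ℝ) / m := by
        rw [le_div_iff₀ hm0]
        have : ((Y * m : ℕ) : ℝ) ≤ x := by
          rw [mul_comm] at h1
          exact_mod_cast h1
        push_cast at this
        exact this
      have h3 : t0 ≤ (x : ℝ) / m := by
        have : (Ct : ℝ) ≤ Y := by exact_mod_cast (show Ct ≤ Y by omega)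
        linarith
      have h4 := ht0 _ h3
      rw [Nat.floor_div_eq_div] at h4
      have h5 : Real.log Y ≤ Real.log ((x : ℝ) / m) := Real.log_le_log (by linarith) h2
      have h6 : (0 : ℝ) ≤ (x : ℝ) / m := by positivity
      calc (Nat.primeCounting (x / m) : ℝ)
          ≤ (Real.log 4 + (2 - Real.log 4)) * ((x : ℝ) / m) / Real.log ((x : ℝ) / m) := h4
        _ = 2 * ((x : ℝ) / m) / Real.log ((x : ℝ) / m) := by ring
        _ ≤ 2 * ((x : ℝ) / m) / Real.log Y :=
            div_le_div_of_nonneg_left (by positivity) hlogY h5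
        _ = (2 * x / Real.log Y) * (m : ℝ)⁻¹ := by
            rw [div_eq_mul_inv, div_eq_mul_inv, div_eq_mul_inv]
            ring
    have hharm : ∑ m ∈ Finset.Icc 1 (x / Y), (m : ℝ)⁻¹ ≤ 1 + Real.log 2 + δ * Real.log N := by
      have h1 : ∑ m ∈ Finset.Icc 1 (x / Y), (m : ℝ)⁻¹ = ((harmonic (x / Y) : ℚ) : ℝ) := by
        rw [harmonic_eq_sum_Icc]
        push_cast
        rfl
      rw [h1]
      refine (harmonic_le_one_add_log _).trans ?_
      have h2 : Real.log ((x / Y : ℕ) : ℝ) ≤ Real.log 2 + δ * Real.log N := by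
        rcases Nat.eq_zero_or_pos (x / Y) with h0 | h0
        · rw [h0]
          simp only [Nat.cast_zero, Real.log_zero]
          have : 0 ≤ Real.log N := Real.log_nonneg hNr
          have h3 : 0 ≤ Real.log 2 := Real.log_nonneg (by norm_num)
          positivity
        · have h3 : ((x / Y : ℕ) : ℝ) ≤ 2 * (N : ℝ) ^ δ := by
            calc ((x / Y : ℕ) : ℝ) ≤ (x : ℝ) / Y := Nat.cast_div_le
              _ ≤ (N : ℝ) / Y := by
                apply div_le_div_of_nonneg_right _ (by linarith)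
                exact_mod_cast hx
              _ ≤ (N : ℝ) / ((N : ℝ) ^ (1 - δ) / 2) := by
                apply div_le_div_of_nonneg_left (by linarith) (by positivity) hYlow
              _ = 2 * (N : ℝ) ^ δ := by
                have h5 : (N : ℝ) = (N : ℝ) ^ (1 - δ) * (N : ℝ) ^ δ := by
                  rw [← Real.rpow_add (by linarith)]
                  simp
                have h6 : 0 < (N : ℝ) ^ (1 - δ) := Real.rpow_pos_of_pos (by linarith) _
                rw [div_div_eq_mul_div, div_eq_iff h6.ne']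
                nth_rewrite 1 [h5]
                ring
          have h4 := Real.log_le_log (by exact_mod_cast h0) h3
          rw [Real.log_mul (by norm_num) (by positivity), Real.log_rpow (by linarith)] at h4
          exact h4
      linarith
    have hlog2 : Real.log 2 < 0.7 := by
      have := Real.log_two_lt_d9
      linarith
    have hlog20 : 0 < Real.log 2 := Real.log_pos (by norm_num)
    have hx0 : (0 : ℝ) ≤ x := Nat.cast_nonneg x
    calc (∑ m ∈ Finset.Icc 1 (x / Y), (Nat.primeCounting (x / m) : ℝ))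
        ≤ ∑ m ∈ Finset.Icc 1 (x / Y), (2 * x / Real.log Y) * (m : ℝ)⁻¹ := Finset.sum_le_sum hterm
      _ = (2 * x / Real.log Y) * ∑ m ∈ Finset.Icc 1 (x / Y), (m : ℝ)⁻¹ := by
          rw [Finset.mul_sum]
      _ ≤ (2 * x / Real.log Y) * (1 + Real.log 2 + δ * Real.log N) := by
          apply mul_le_mul_of_nonneg_left hharm
          positivity
      _ ≤ 4 * δ * x := by
          rw [div_mul_eq_mul_div, div_le_iff₀ hlogY]
          have hL : 5 ≤ Real.log N * δ := by
            rwa [div_le_iff₀ hδ0] at hN3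
          have h7 : 2 * (1 + Real.log 2 + δ * Real.log N) ≤ 4 * δ * Real.log Y := by
            have h8 : 4 * δ * ((1 - δ) * Real.log N - Real.log 2) ≤ 4 * δ * Real.log Y :=
              mul_le_mul_of_nonneg_left hlogYlow (by positivity)
            nlinarith
          nlinarith
  have hlast : (x : ℝ) * (2 / (((Nat.sqrt (Nat.sqrt Y) : ℕ) : ℝ) + 1)) ≤ δ * x := by
    have h1 : (Cd : ℝ) ≤ (Nat.sqrt (Nat.sqrt Y) : ℕ) := by exact_mod_cast hN1
    have h2 : 2 / δ < ((Nat.sqrt (Nat.sqrt Y) : ℕ) : ℝ) + 1 := by linarith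
    have h3 : 2 / (((Nat.sqrt (Nat.sqrt Y) : ℕ) : ℝ) + 1) ≤ δ := by
      rw [div_le_iff₀ (by positivity)]
      rw [div_lt_iff₀ hδ0] at h2
      linarith
    calc (x : ℝ) * (2 / (((Nat.sqrt (Nat.sqrt Y) : ℕ) : ℝ) + 1)) ≤ x * δ :=
          mul_le_mul_of_nonneg_left h3 (Nat.cast_nonneg x)
      _ = δ * x := by ring
  linarith

end PartC

open Finset Filter Topology PartB2 PartD
  PartC

lemma greedy (S E0 : Finset ℕ) (h0 : E0 ⊆ S) (t η : ℚ) (hη0 : 0 ≤ η)
    (hη : ∀ n ∈ S, (1 : ℚ) / n ≤ η) (h1 : ∑ n ∈ E0, (1 : ℚ) / n ≤ t)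
    (h2 : t ≤ ∑ n ∈ S, (1 : ℚ) / n) :
    ∃ E, E0 ⊆ E ∧ E ⊆ S ∧ ∑ n ∈ E, (1 : ℚ) / n ≤ t ∧ t - η ≤ ∑ n ∈ E, (1 : ℚ) / n := by
  classical
  set Fam := S.powerset.filter (fun E => E0 ⊆ E ∧ ∑ n ∈ E, (1 : ℚ) / n ≤ t) with hFam
  have hne : Fam.Nonempty := ⟨E0, by
    rw [hFam, Finset.mem_filter, Finset.mem_powerset]
    exact ⟨h0, Finset.Subset.refl _, h1⟩⟩
  obtain ⟨E, hE, hmax⟩ := Finset.exists_max_image Fam Finset.card hne
  rw [hFam, Finset.mem_filter, Finset.mem_powerset] at hE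
  refine ⟨E, hE.2.1, hE.1, hE.2.2, ?_⟩
  by_cases hES : E = S
  · rw [hES]
    linarith
  · obtain ⟨n, hnS, hnE⟩ : ∃ n ∈ S, n ∉ E := by
      by_contra hcon
      push Not at hcon
      exact hES (Finset.Subset.antisymm hE.1 hcon)
    by_contra hlt
    push Not at hlt
    have hmem : insert n E ∈ Fam := by
      rw [hFam, Finset.mem_filter, Finset.mem_powerset]
      refine ⟨Finset.insert_subset hnS hE.1, hE.2.1.trans (Finset.subset_insert _ _), ?_⟩
      rw [Finset.sum_insert hnE]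
      have := hη n hnS
      linarith
    have h3 := hmax _ hmem
    rw [Finset.card_insert_of_notMem hnE] at h3
    omega

lemma norm_le_den {p : ℕ} [hp : Fact p.Prime] (r : ℚ) : padicNorm p r ≤ r.den := by
  have h1 : r = (r.num : ℚ) * ((1 : ℚ) / r.den) := by
    rw [mul_one_div, Rat.num_div_den]
  calc padicNorm p r = padicNorm p ((r.num : ℚ) * ((1 : ℚ) / r.den)) := by rw [← h1]
    _ = padicNorm p (r.num : ℚ) * padicNorm p ((1 : ℚ) / r.den) := padicNorm.mul _ _
    _ ≤ 1 * r.den := by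
      apply mul_le_mul (padicNorm.of_int _) (norm_inv_nat_le _ r.den_pos) (padicNorm.nonneg _)
        (by norm_num)
    _ = r.den := one_mul _

lemma norm_elig {p : ℕ} [hp : Fact p.Prime] {B : Finset ℕ} {Y n : ℕ} (hn : 0 < n)
    (he : Elig B Y n) : padicNorm p ((1 : ℚ) / n) ≤ Y := by
  have hn' : (n : ℚ) ≠ 0 := by positivity
  rw [padicNorm.div, padicNorm.one]
  have h1 : padicNorm p (n : ℚ) = (p : ℚ) ^ (-(padicValNat p n : ℤ)) := by
    rw [padicNorm.eq_zpow_of_nonzero hn', padicValRat.of_nat]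
  rw [h1, zpow_neg, one_div, inv_inv, zpow_natCast]
  exact_mod_cast he.2 p _ hp.out pow_padicValNat_dvd

open Classical in
lemma count_elig (B : Finset ℕ) (Y x y : ℕ) (ρ : ℝ) (hyx : y ≤ x)
    (h : (((Finset.Icc 1 x).filter (fun n => ¬ Elig B Y n)).card : ℝ) ≤ ρ * x) :
    (x : ℝ) - y - ρ * x ≤ (((Finset.Icc 1 x).filter (fun n => y < n ∧ Elig B Y n)).card : ℝ) := by
  have h1 : ((Finset.Icc 1 x).filter (fun n => y < n)).card = x - y := by
    have : (Finset.Icc 1 x).filter (fun n => y < n) = Finset.Ioc y x := by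
      ext n
      simp only [Finset.mem_filter, Finset.mem_Icc, Finset.mem_Ioc]
      omega
    rw [this, Nat.card_Ioc]
  have h2 : ((Finset.Icc 1 x).filter (fun n => y < n)).card
      ≤ ((Finset.Icc 1 x).filter (fun n => y < n ∧ Elig B Y n)).card
        + ((Finset.Icc 1 x).filter (fun n => ¬ Elig B Y n)).card := by
    rw [← Finset.card_filter_add_card_filter_not (s := (Finset.Icc 1 x).filter (fun n => y < n))
      (fun n => Elig B Y n), Finset.filter_filter]
    apply Nat.add_le_add_left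
    apply Finset.card_le_card
    intro n hn
    simp only [Finset.mem_filter] at hn ⊢
    exact ⟨hn.1.1, hn.2⟩
  rw [h1] at h2
  have h3 : ((x : ℝ) - y) ≤ (((Finset.Icc 1 x).filter (fun n => y < n ∧ Elig B Y n)).card : ℝ)
        + (((Finset.Icc 1 x).filter (fun n => ¬ Elig B Y n)).card : ℝ) := by
    have : ((x - y : ℕ) : ℝ) = (x : ℝ) - y := by
      rw [Nat.cast_sub hyx]
    rw [← this]
    exact_mod_cast h2
  linarith

open Classical in
/-- The eligible integers in dyadic blocks have large reciprocal sum. -/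
lemma block_sum (B : Finset ℕ) (Y N i0 : ℕ) (hN : 2 ^ i0 ≤ N)
    (h : ∀ x ≤ N, (((Finset.Icc 1 x).filter (fun n => ¬ Elig B Y n)).card : ℝ) ≤ (1 / 8) * x)
    (i : ℕ) (hi : i ≤ i0) :
    (i : ℝ) / 4 ≤ ∑ n ∈ (Finset.Icc 1 N).filter (fun n => N / 2 ^ i < n ∧ Elig B Y n),
      (1 : ℝ) / n := by
  induction i with
  | zero =>
    simp only [Nat.cast_zero, zero_div]
    exact Finset.sum_nonneg (fun n _ => by positivity)
  | succ i ih =>
    have ih' := ih (by omega)
    set x := N / 2 ^ i with hx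
    have hx1 : N / 2 ^ (i + 1) = x / 2 := by
      rw [hx, Nat.div_div_eq_div_mul, pow_succ]
    have hx0 : 0 < x := by
      rw [hx]
      apply Nat.div_pos _ (by positivity)
      exact (Nat.pow_le_pow_right (by norm_num) (by omega)).trans hN
    have hxN : x ≤ N := Nat.div_le_self _ _
    have hxr : (0 : ℝ) < x := by exact_mod_cast hx0
    rw [hx1]
    have hdisj : Disjoint ((Finset.Icc 1 N).filter (fun n => x < n ∧ Elig B Y n))
        ((Finset.Icc 1 x).filter (fun n => x / 2 < n ∧ Elig B Y n)) := by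
      rw [Finset.disjoint_left]
      intro n hn hn'
      simp only [Finset.mem_filter, Finset.mem_Icc] at hn hn'
      omega
    have hunion : ((Finset.Icc 1 N).filter (fun n => x < n ∧ Elig B Y n)) ∪
        ((Finset.Icc 1 x).filter (fun n => x / 2 < n ∧ Elig B Y n))
        ⊆ (Finset.Icc 1 N).filter (fun n => x / 2 < n ∧ Elig B Y n) := by
      intro n hn
      rw [Finset.mem_union] at hn
      simp only [Finset.mem_filter, Finset.mem_Icc] at hn ⊢
      rcases hn with hn | hn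
      · exact ⟨hn.1, by omega, hn.2.2⟩
      · exact ⟨⟨hn.1.1, by omega⟩, hn.2⟩
    have h1 : ∑ n ∈ ((Finset.Icc 1 N).filter (fun n => x < n ∧ Elig B Y n)) ∪
        ((Finset.Icc 1 x).filter (fun n => x / 2 < n ∧ Elig B Y n)), (1 : ℝ) / n
        ≤ ∑ n ∈ (Finset.Icc 1 N).filter (fun n => x / 2 < n ∧ Elig B Y n), (1 : ℝ) / n :=
      Finset.sum_le_sum_of_subset_of_nonneg hunion (fun n _ _ => by positivity)
    rw [Finset.sum_union hdisj] at h1
    have h2 : (1 : ℝ) / 4 ≤ ∑ n ∈ (Finset.Icc 1 x).filter (fun n => x / 2 < n ∧ Elig B Y n),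
        (1 : ℝ) / n := by
      have h3 := count_elig B Y x (x / 2) (1 / 8) (Nat.div_le_self _ _) (h x hxN)
      have h4 : ((x / 2 : ℕ) : ℝ) ≤ (x : ℝ) / 2 := by
        have := @Nat.cast_div_le ℝ _ _ _ x 2
        exact_mod_cast this
      calc (1 : ℝ) / 4 ≤ ((3 / 8) * x) * (1 / x) := by
            rw [mul_one_div, mul_div_assoc, div_self hxr.ne']
            norm_num
        _ ≤ (((Finset.Icc 1 x).filter (fun n => x / 2 < n ∧ Elig B Y n)).card : ℝ) * (1 / x) := by
            apply mul_le_mul_of_nonneg_right _ (by positivity)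
            linarith
        _ = ∑ n ∈ (Finset.Icc 1 x).filter (fun n => x / 2 < n ∧ Elig B Y n), (1 : ℝ) / x := by
            rw [Finset.sum_const, nsmul_eq_mul]
        _ ≤ ∑ n ∈ (Finset.Icc 1 x).filter (fun n => x / 2 < n ∧ Elig B Y n), (1 : ℝ) / n := by
            apply Finset.sum_le_sum
            intro n hn
            simp only [Finset.mem_filter, Finset.mem_Icc] at hn
            apply one_div_le_one_div_of_le
            · exact_mod_cast hn.1.1
            · exact_mod_cast hn.1.2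
    push_cast
    linarith

open Classical in
theorem main_exists (ε : ℝ) (hε0 : 0 < ε) (hε1 : ε ≤ 1) :
    ∀ᶠ N : ℕ in atTop, ∃ A : Finset ℕ, Admissible N A ∧ (1 - ε) * N ≤ A.card := by
  obtain ⟨M0, hM0⟩ := exists_nat_gt (4 / ε)
  have hM0r : (0 : ℝ) < M0 := lt_trans (by positivity) hM0
  have hM0pos : 0 < M0 := by exact_mod_cast hM0r
  obtain ⟨k, B, hk, hBne, hBp, hB2, hBs, hT⟩ := PartD2.choose_params (ε / 16) (by positivity)
    ((M0 : ℝ) + 3)
  obtain ⟨D, hD0, hDS, hDdvd, hDn⟩ := closing hBp hk hBne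
  set TP : ℚ := (∑ n ∈ SS k B, (1 : ℚ) / n) - 1 / D with hTP
  have hTPlow : (M0 : ℚ) + 2 ≤ TP := by
    have h1 : (M0 : ℚ) + 3 ≤ ∑ n ∈ SS k B, (1 : ℚ) / n := by
      have : (((M0 : ℚ) + 3 : ℚ) : ℝ) ≤ ((∑ n ∈ SS k B, (1 : ℚ) / n : ℚ) : ℝ) := by
        push_cast at hT ⊢
        exact hT
      exact_mod_cast this
    have h2 : (1 : ℚ) / D ≤ 1 := by
      rw [div_le_one (by exact_mod_cast hD0)]
      exact_mod_cast hD0
    linarith
  set δ : ℝ := ε / 160 with hδ
  have hδ0 : 0 < δ := by positivity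
  have hδ4 : δ ≤ 1 / 4 := by rw [hδ]; linarith
  obtain ⟨g, hg⟩ := exists_nat_gt (2 / δ)
  have hgr : (0 : ℝ) < g := lt_trans (by positivity) hg
  have hgpos : 1 ≤ g := by
    have : 0 < g := by exact_mod_cast hgr
    omega
  obtain ⟨M, hM2, hrep⟩ := PartB4.represent g hgpos B (fun p hp => ⟨(hBp p hp).1, hB2 p hp⟩)
  obtain ⟨i0, hi0⟩ := exists_nat_gt (4 * TP)
  have hcount := count_small B (fun p hp => (hBp p hp).1) δ hδ0 hδ4
  have hYtend := YY_tendsto δ (by linarith)
  have hNδ : Tendsto (fun N : ℕ => (N : ℝ) ^ δ) atTop atTop :=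
    (tendsto_rpow_atTop hδ0).comp tendsto_natCast_atTop_atTop
  filter_upwards [hcount, hYtend.eventually_ge_atTop (M + TP.den),
    hNδ.eventually_ge_atTop ((M : ℝ) * 2 ^ i0), eventually_ge_atTop (2 ^ (i0 * g)),
    eventually_ge_atTop (2 ^ i0 + D + (SS k B).sup id + 1)] with N hN1 hN2 hN3 hN4 hN5
  set Y := YY δ N with hY
  have h2i0 : 0 < 2 ^ i0 := by positivity
  have hNpos : 0 < N := by omega
  have hNr : (0 : ℝ) < N := by exact_mod_cast hNpos
  have hNr1 : (1 : ℝ) ≤ N := by exact_mod_cast hNpos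
  have hi0N : 2 ^ i0 ≤ N := by omega
  have hBsr : (∑ p ∈ B, (1 : ℝ) / p) + 5 * δ ≤ ε / 8 := by
    rw [hδ]
    linarith
  have hcnt : ∀ x ≤ N, (((Finset.Icc 1 x).filter (fun n => ¬ Elig B Y n)).card : ℝ)
      ≤ (ε / 8) * x := by
    intro x hx
    refine (hN1 x hx).trans ?_
    exact mul_le_mul_of_nonneg_right hBsr (Nat.cast_nonneg x)
  have hcnt8 : ∀ x ≤ N, (((Finset.Icc 1 x).filter (fun n => ¬ Elig B Y n)).card : ℝ)
      ≤ (1 / 8) * x := by
    intro x hx
    refine (hcnt x hx).trans ?_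
    apply mul_le_mul_of_nonneg_right _ (Nat.cast_nonneg x)
    linarith
  -- the candidate set and the core
  set S := (Finset.Icc 1 N).filter (fun n => N / 2 ^ i0 < n ∧ Elig B Y n) with hS
  set E0 := (Finset.Icc 1 N).filter (fun n => N / M0 < n ∧ Elig B Y n) with hE0
  have hM0i0 : M0 ≤ 2 ^ i0 := by
    have h1 : (M0 : ℚ) < i0 := by linarith
    have h2 : M0 < i0 := by exact_mod_cast h1
    have h3 : i0 < 2 ^ i0 := Nat.lt_two_pow_self
    omega
  have hE0S : E0 ⊆ S := by
    intro n hn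
    simp only [hE0, hS, Finset.mem_filter] at hn ⊢
    refine ⟨hn.1, ?_, hn.2.2⟩
    have : N / 2 ^ i0 ≤ N / M0 := Nat.div_le_div_left hM0i0 hM0pos
    omega
  have hSpos : ∀ n ∈ S, 2 ≤ n := by
    intro n hn
    simp only [hS, Finset.mem_filter] at hn
    have : 1 ≤ N / 2 ^ i0 := Nat.div_pos hi0N (by positivity)
    omega
  have hE0sum : ∑ n ∈ E0, (1 : ℚ) / n ≤ TP - 1 := by
    have h1 : ∀ n ∈ E0, (1 : ℚ) / n ≤ (M0 : ℚ) / N := by
      intro n hn
      simp only [hE0, Finset.mem_filter, Finset.mem_Icc] at hn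
      have h2 : N < M0 * n := by
        have h3 : N < M0 * (N / M0 + 1) := by
          have := Nat.div_add_mod N M0
          have h4 := Nat.mod_lt N hM0pos
          rw [mul_add]
          omega
        have h5 : M0 * (N / M0 + 1) ≤ M0 * n := Nat.mul_le_mul_left _ (by omega)
        omega
      have hn0 : (0 : ℚ) < n := by exact_mod_cast hn.1.1
      have hN0 : (0 : ℚ) < N := by exact_mod_cast hNpos
      rw [div_le_div_iff₀ hn0 hN0]
      have : (N : ℚ) < M0 * n := by exact_mod_cast h2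
      linarith
    have h6 : ∑ n ∈ E0, (1 : ℚ) / n ≤ E0.card * ((M0 : ℚ) / N) := by
      have := Finset.sum_le_card_nsmul E0 (fun n => (1 : ℚ) / n) _ h1
      rwa [nsmul_eq_mul] at this
    have h7 : E0.card ≤ N := by
      calc E0.card ≤ (Finset.Icc 1 N).card := Finset.card_filter_le _ _
        _ = N := by simp
    have h8 : (E0.card : ℚ) * ((M0 : ℚ) / N) ≤ M0 := by
      have hN0 : (0 : ℚ) < N := by exact_mod_cast hNpos
      have h9 : (E0.card : ℚ) ≤ N := by exact_mod_cast h7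
      calc (E0.card : ℚ) * ((M0 : ℚ) / N) ≤ N * ((M0 : ℚ) / N) :=
            mul_le_mul_of_nonneg_right h9 (by positivity)
        _ = M0 := by field_simp
    linarith
  have hSsum : TP - 1 ≤ ∑ n ∈ S, (1 : ℚ) / n := by
    have h1 := block_sum B Y N i0 hi0N hcnt8 i0 (le_refl _)
    have h2 : ((i0 : ℚ) / 4) ≤ ∑ n ∈ S, (1 : ℚ) / n := by
      have : (((i0 : ℚ) / 4 : ℚ) : ℝ) ≤ ((∑ n ∈ S, (1 : ℚ) / n : ℚ) : ℝ) := by
        push_cast
        exact h1
      exact_mod_cast this
    linarith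
  obtain ⟨E, hE0E, hES, hEle, hEge⟩ := greedy S E0 hE0S (TP - 1) (1 / 2) (by norm_num) (by
    intro n hn
    have h1 : (2 : ℚ) ≤ n := by exact_mod_cast hSpos n hn
    rw [div_le_div_iff₀ (by linarith) (by norm_num)]
    linarith) hE0sum hSsum
  set z := TP - ∑ n ∈ E, (1 : ℚ) / n with hz
  have hEmem : ∀ n ∈ E, 0 < n ∧ n ≤ N ∧ N / 2 ^ i0 < n ∧ Elig B Y n := by
    intro n hn
    have := hES hn
    simp only [hS, Finset.mem_filter, Finset.mem_Icc] at this
    exact ⟨by omega, this.1.2, this.2.1, this.2.2⟩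
  have hYq : ((TP.den : ℕ) : ℚ) ≤ Y := by
    have : TP.den ≤ Y := by omega
    exact_mod_cast this
  have hzp : ∀ p : ℕ, p.Prime → padicNorm p z ≤ Y := by
    intro p hp
    have hf : Fact p.Prime := ⟨hp⟩
    rw [hz]
    refine (padicNorm.sub).trans (max_le ((norm_le_den TP).trans hYq) ?_)
    apply padicNorm.sum_le' _ (by positivity)
    intro n hn
    exact norm_elig (hEmem n hn).1 (hEmem n hn).2.2.2
  have hzB : ∀ p ∈ B, padicNorm p z ≤ 1 := by
    intro p hpB
    have hf : Fact p.Prime := ⟨(hBp p hpB).1⟩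
    rw [hz]
    refine (padicNorm.sub).trans (max_le (hDn p hpB) ?_)
    apply padicNorm.sum_le' _ (by norm_num)
    intro n hn
    rw [norm_inv_nat n ((hEmem n hn).2.2.2.1 p hpB)]
  obtain ⟨G, hGsum, hG⟩ := hrep Y (by omega) z (by linarith) (by linarith) hzp hzB
  -- sizes of the elements of G
  have hYle : (Y : ℝ) ≤ (N : ℝ) ^ (1 - δ) := Nat.floor_le (by positivity)
  have hGsmall : ∀ n ∈ G, n * 2 ^ i0 ≤ N := by
    intro n hn
    rcases (hG n hn).2.2 with h | h
    · have h1 : (n : ℝ) * 2 ^ i0 ≤ N := by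
        calc (n : ℝ) * 2 ^ i0 ≤ (Y * M) * 2 ^ i0 := by
              apply mul_le_mul_of_nonneg_right _ (by positivity)
              exact_mod_cast h
          _ = Y * (M * 2 ^ i0) := by ring
          _ ≤ (N : ℝ) ^ (1 - δ) * (N : ℝ) ^ δ := by
              apply mul_le_mul hYle hN3 (by positivity) (by positivity)
          _ = N := by
              rw [← Real.rpow_add hNr]
              simp
      exact_mod_cast h1
    · have h1 : ((n * 2 ^ i0 : ℕ) : ℝ) ^ g ≤ (N : ℝ) ^ g := by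
        have h2 : ((n : ℝ)) ^ g ≤ (Y : ℝ) ^ (g + 1) := by exact_mod_cast h
        have h3 : (Y : ℝ) ^ (g + 1) ≤ ((N : ℝ) ^ (1 - δ)) ^ (g + 1) :=
          pow_le_pow_left₀ (by positivity) hYle _
        have h4 : ((N : ℝ) ^ (1 - δ)) ^ (g + 1) * N ≤ (N : ℝ) ^ g := by
          rw [← Real.rpow_natCast, ← Real.rpow_mul hNr.le, ← Real.rpow_natCast]
          nth_rewrite 2 [← Real.rpow_one (N : ℝ)]
          rw [← Real.rpow_add hNr]
          apply Real.rpow_le_rpow_of_exponent_le hNr1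
          push_cast
          have h5 : 2 < g * δ := by
            rwa [div_lt_iff₀ hδ0] at hg
          nlinarith
        have h6 : ((2 : ℝ) ^ i0) ^ g ≤ N := by
          rw [← pow_mul]
          exact_mod_cast hN4
        push_cast
        rw [mul_pow]
        calc (n : ℝ) ^ g * ((2 : ℝ) ^ i0) ^ g ≤ ((N : ℝ) ^ (1 - δ)) ^ (g + 1) * N := by
              apply mul_le_mul (h2.trans h3) h6 (by positivity) (by positivity)
          _ ≤ (N : ℝ) ^ g := h4
      have h7 : ((n * 2 ^ i0 : ℕ) : ℝ) ≤ N :=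
        le_of_pow_le_pow_left₀ (by omega) (by positivity) h1
      exact_mod_cast h7
  have hEG : Disjoint E G := by
    rw [Finset.disjoint_left]
    intro n hn hn'
    have h1 := (hEmem n hn).2.2.1
    have h2 := hGsmall n hn'
    have h3 : n ≤ N / 2 ^ i0 := (Nat.le_div_iff_mul_le (by positivity)).mpr h2
    omega
  set P := E ∪ G with hP
  have hPmem : ∀ n ∈ P, 0 < n ∧ ∀ p ∈ B, ¬ p ∣ n := by
    intro n hn
    rw [hP, Finset.mem_union] at hn
    rcases hn with hn | hn
    · exact ⟨(hEmem n hn).1, (hEmem n hn).2.2.2.1⟩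
    · exact ⟨(hG n hn).1, (hG n hn).2.1⟩
  have hPsum : ∑ n ∈ P, (1 : ℚ) / n = TP := by
    rw [hP, Finset.sum_union hEG, hGsum, hz]
    ring
  have hPN : ∀ n ∈ P, n ≤ N := by
    intro n hn
    rw [hP, Finset.mem_union] at hn
    rcases hn with hn | hn
    · exact (hEmem n hn).2.1
    · have h1 := hGsmall n hn
      have h2 : n * 1 ≤ n * 2 ^ i0 := Nat.mul_le_mul_left _ Nat.one_le_two_pow
      omega
  obtain ⟨p0, hp0⟩ := hBne
  have hDP : D ∉ P := fun h => (hPmem D h).2 p0 hp0 (hDdvd p0 hp0)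
  have hSSmem : ∀ n ∈ SS k B, 0 < n ∧ ∃ p ∈ B, p ∣ n := by
    intro n hn
    unfold SS at hn
    rw [Finset.mem_image] at hn
    obtain ⟨⟨p, a⟩, hpa, rfl⟩ := hn
    rw [Finset.mem_product, Finset.mem_Icc] at hpa
    exact ⟨Nat.mul_pos (hBp p hpa.1).1.pos (by simp only at hpa; omega), p, hpa.1, Dvd.intro _ rfl⟩
  have hSSP : Disjoint (SS k B) P := by
    rw [Finset.disjoint_left]
    intro n hn hn'
    obtain ⟨_, p, hpB, hpn⟩ := hSSmem n hn
    exact (hPmem n hn').2 p hpB hpn
  set A := SS k B ∪ insert D P with hA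
  have hDA : Disjoint (SS k B) (insert D P) := by
    rw [Finset.disjoint_insert_right]
    exact ⟨hDS, hSSP⟩
  have hsumA : ∑ n ∈ A, (((if n ∈ SS k B then -1 else 1 : ℤ)) : ℚ) / n = 0 := by
    rw [hA, Finset.sum_union hDA, Finset.sum_insert hDP]
    have h1 : ∑ n ∈ SS k B, (((if n ∈ SS k B then -1 else 1 : ℤ)) : ℚ) / n
        = - ∑ n ∈ SS k B, (1 : ℚ) / n := by
      rw [← Finset.sum_neg_distrib]
      apply Finset.sum_congr rfl
      intro n hn
      rw [if_pos hn]
      push_cast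
      rw [neg_div]
    have h2 : ∑ n ∈ P, (((if n ∈ SS k B then -1 else 1 : ℤ)) : ℚ) / n
        = ∑ n ∈ P, (1 : ℚ) / n := by
      apply Finset.sum_congr rfl
      intro n hn
      rw [if_neg (fun h => Finset.disjoint_left.mp hSSP h hn)]
      push_cast
      rfl
    rw [h1, h2, hPsum, if_neg hDS, hTP]
    push_cast
    ring
  refine ⟨A, ⟨?_, ?_⟩, ?_⟩
  · intro n hn
    rw [hA, Finset.mem_union, Finset.mem_insert] at hn
    rw [Finset.mem_Icc]
    rcases hn with hn | hn | hn
    · have h1 : n ≤ (SS k B).sup id := Finset.le_sup (f := id) hn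
      exact ⟨(hSSmem n hn).1, by omega⟩
    · subst hn
      exact ⟨hD0, by omega⟩
    · exact ⟨(hPmem n hn).1, hPN n hn⟩
  · refine ⟨fun n => if n ∈ SS k B then -1 else 1, ?_, ?_, ?_⟩
    · intro n _
      by_cases h : n ∈ SS k B
      · right
        simp [h]
      · left
        simp [h]
    · exact hsumA
    · intro A' hA' hne hneA hsum
      by_cases hDA' : D ∈ A'
      · -- pass to the complement
        have hcompl : ∑ n ∈ A \ A', (((if n ∈ SS k B then -1 else 1 : ℤ)) : ℚ) / n = 0 := by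
          have h3 := Finset.sum_sdiff (f := fun n : ℕ =>
            (((if n ∈ SS k B then -1 else 1 : ℤ)) : ℚ) / n) hA'
          rw [hsumA] at h3
          have hsum' : ∑ n ∈ A', (((if n ∈ SS k B then -1 else 1 : ℤ)) : ℚ) / n = 0 := hsum
          rw [hsum', add_zero] at h3
          exact h3
        have hsub : A \ A' ⊆ SS k B ∪ P := by
          intro n hn
          rw [Finset.mem_sdiff, hA, Finset.mem_union, Finset.mem_insert] at hn
          rw [Finset.mem_union]
          rcases hn.1 with h | h | h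
          · exact Or.inl h
          · exact absurd (h ▸ hDA') hn.2
          · exact Or.inr h
        have hempty := minimal hBp hPmem (A \ A') hsub hcompl
        rw [Finset.sdiff_eq_empty_iff_subset] at hempty
        exact hneA (Finset.Subset.antisymm hA' hempty)
      · have hsub : A' ⊆ SS k B ∪ P := by
          intro n hn
          have := hA' hn
          rw [hA, Finset.mem_union, Finset.mem_insert] at this
          rw [Finset.mem_union]
          rcases this with h | h | h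
          · exact Or.inl h
          · exact absurd (h ▸ hn) hDA'
          · exact Or.inr h
        exact hne (minimal hBp hPmem A' hsub hsum)
  · -- the cardinality
    have h1 : E0.card ≤ A.card := by
      apply Finset.card_le_card
      intro n hn
      rw [hA, Finset.mem_union, Finset.mem_insert, hP, Finset.mem_union]
      exact Or.inr (Or.inr (Or.inl (hE0E hn)))
    have h2 := count_elig B Y N (N / M0) (ε / 8) (Nat.div_le_self _ _) (hcnt N (le_refl _))
    have h3 : ((N / M0 : ℕ) : ℝ) ≤ (ε / 4) * N := by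
      calc ((N / M0 : ℕ) : ℝ) ≤ (N : ℝ) / M0 := Nat.cast_div_le
        _ ≤ (ε / 4) * N := by
          rw [div_le_iff₀ hM0r]
          rw [div_lt_iff₀ hε0] at hM0
          nlinarith
    have h4 : (E0.card : ℝ) ≤ A.card := by exact_mod_cast h1
    nlinarith

lemma c_bdd (N : ℕ) : ∀ m ∈ {m : ℕ | ∃ A : Finset ℕ, Admissible N A ∧ A.card = m}, m ≤ N := by
  rintro m ⟨A, hA, rfl⟩
  calc A.card ≤ (Finset.Icc 1 N).card := Finset.card_le_card hA.1
    _ = N := by simp

/-- The supremum defining `c N` is a maximum. -/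
theorem c_isGreatest (N : ℕ) :
    IsGreatest {m : ℕ | ∃ A : Finset ℕ, Admissible N A ∧ A.card = m} (c N) := by
  refine ⟨Nat.sSup_mem ⟨0, ∅, ⟨by simp, fun _ => 1, by simp, by simp, ?_⟩, by simp⟩
    ⟨N, c_bdd N⟩, fun m hm => le_csSup ⟨N, c_bdd N⟩ hm⟩
  intro A' hA' hne _
  exact absurd (Finset.subset_empty.mp hA') hne

/-- `c(N) = (1 + o(1)) N`. -/
theorem result : Filter.Tendsto (fun N : ℕ => (c N : ℝ) / (N : ℝ)) Filter.atTop (nhds 1) := by
  rw [tendsto_order]
  constructor
  · intro a ha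
    set ε : ℝ := min ((1 - a) / 2) 1 with hε
    have hε0 : 0 < ε := lt_min (by linarith) (by norm_num)
    have hε1 : ε ≤ 1 := min_le_right _ _
    have hεa : ε ≤ (1 - a) / 2 := min_le_left _ _
    filter_upwards [main_exists ε hε0 hε1, Filter.eventually_ge_atTop 1] with N hN hN1
    obtain ⟨A, hA, hcard⟩ := hN
    have h1 : A.card ≤ c N := (c_isGreatest N).2 ⟨A, hA, rfl⟩
    have h2 : (A.card : ℝ) ≤ c N := by exact_mod_cast h1
    have hNr : (0 : ℝ) < N := by exact_mod_cast hN1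
    rw [lt_div_iff₀ hNr]
    nlinarith
  · intro a ha
    filter_upwards [Filter.eventually_ge_atTop 1] with N hN1
    have hNr : (0 : ℝ) < N := by exact_mod_cast hN1
    have h1 : c N ≤ N := c_bdd N _ (c_isGreatest N).1
    have h2 : (c N : ℝ) ≤ N := by exact_mod_cast h1
    rw [div_lt_iff₀ hNr]
    nlinarith

end Pool.Agent.Results.MP_47c171_nt.FullDensity
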